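import Mathlib
import Pool.Agent.Helper72.KRF.Iso

/-!
# Project FX (MP_3bffab, S00143): definitions of the example

`A` is any commutative `ℂ`-algebra: we use polynomial rings (algebra) and `A = ℂ` (points).
-/

set_option autoImplicit false

namespace Pool.Agent.Helper72.FX

open Pool.Agent.Helper72.KRF

noncomputable section

variable {A : Type} [CommRing A] [Algebra ℂ A]

/-- a complex constant in `A` -/
def cc (A : Type) [CommRing A] [Algebra ℂ A] (z : ℂ) : A := algebraMap ℂ A z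

/-- `ν = 2 b + t b² - a²` -/
def nu (a b t : A) : A := 2 * b + t * b ^ 2 - a ^ 2

/-- the nilpotent matrix of a vector -/
def NN (w : A × A) : Matrix (Fin 2) (Fin 2) A := !![-(w.1 * w.2), w.1 ^ 2; -(w.2 ^ 2), w.1 * w.2]

def W1 (p q : ℂ) (a b t : A) : A × A :=
  (cc A q * a + cc A (p / 2) * (2 + t * b), cc A q * (2 + t * b) + cc A (p / 2) * (t * a))

def W0 (p q : ℂ) (a b t : A) : A × A :=
  (cc A q * b + cc A (p / 2) * a, cc A q * a + cc A (p / 2) * (t * b))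

/-- a product of two unipotent matrices -/
def LL (m : A) (p q : ℂ) (a b t : A) : Matrix (Fin 2) (Fin 2) A :=
  (1 - (cc A (1 / 2) * m) • NN (W1 p q a b t)) * (1 + (cc A (1 / 2) * m * t) • NN (W0 p q a b t))

/-- the family `γ_u` -/
def gg (u a b t : A) : Matrix (Fin 2) (Fin 2) A :=
  LL (cc A (-Complex.I) * u) 1 (-1) a b t * LL u 1 Complex.I a b t

def J0 (t : A) : Matrix (Fin 2) (Fin 2) A := !![1, 0; 0, -t]

/-- `S_u = - γ_u J₀ γ_uᵀ` -/
def SS (u a b t : A) : Matrix (Fin 2) (Fin 2) A :=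
  -(gg u a b t * J0 t * (gg u a b t).transpose)

/-- `K = (kx, ky, kz)` as polynomials in `a, b, t` (variables `0, 1, 2`): `S₁ = [[1 + t ν kx, t ν kz], [., -t + t² ν ky]]` -/
def StKK : Prop := ∃ k : Fin 3 → MvPolynomial (Fin 3) ℂ,
  SS 1 (MvPolynomial.X 0) (MvPolynomial.X 1) (MvPolynomial.X 2) 0 0 =
    1 + MvPolynomial.X 2 * nu (MvPolynomial.X 0) (MvPolynomial.X 1) (MvPolynomial.X 2) * k 0 ∧
  SS 1 (MvPolynomial.X 0) (MvPolynomial.X 1) (MvPolynomial.X 2) 0 1 =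
    MvPolynomial.X 2 * nu (MvPolynomial.X 0) (MvPolynomial.X 1) (MvPolynomial.X 2) * k 2 ∧
  SS 1 (MvPolynomial.X 0) (MvPolynomial.X 1) (MvPolynomial.X 2) 1 1 =
    -MvPolynomial.X 2 + MvPolynomial.X 2 ^ 2 *
      nu (MvPolynomial.X 0) (MvPolynomial.X 1) (MvPolynomial.X 2) * k 1

open Classical in
/-- the polynomials `kx = kp 0`, `ky = kp 1`, `kz = kp 2` -/
def kp : Fin 3 → MvPolynomial (Fin 3) ℂ := if h : StKK then h.choose else 0

def kx (a b t : A) : A := MvPolynomial.aeval ![a, b, t] (kp 0)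
def ky (a b t : A) : A := MvPolynomial.aeval ![a, b, t] (kp 1)
def kz (a b t : A) : A := MvPolynomial.aeval ![a, b, t] (kp 2)

def kappa (a b t : A) : A := t * kx a b t * ky a b t - kz a b t ^ 2

/-- `E₁ = ν - ρ ν' - σ μ` -/
def E1 (a b t r n s m : A) : A := nu a b t - r * n - s * m

/-- `E₂`, arguments `a b t ρ ν' σ μ ω_x ω_y ω_z` -/
def E2 (a b t r n s m x y z : A) : A :=
  -(m * n * kappa a b t) + (y - x) + s * (t * m * kx a b t * y + t * m * ky a b t * x +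
    t * r * x * y - 2 * m * kz a b t * z - r * z ^ 2)

/-- `F = E₁ w₁ + E₂ w₂ - (σ - ρ)`; the variables `0, ..., 11` are
`a b t ρ ν' σ μ ω_x ω_y ω_z w₁ w₂` -/
def FF (z : Fin 12 → A) : A :=
  E1 (z 0) (z 1) (z 2) (z 3) (z 4) (z 5) (z 6) * z 10 +
    E2 (z 0) (z 1) (z 2) (z 3) (z 4) (z 5) (z 6) (z 7) (z 8) (z 9) * z 11 - (z 5 - z 3)

/-- the polynomial `F` -/
def FP : MvPolynomial (Fin 12) ℂ := FF MvPolynomial.X

/-- the suspension `U V - F` -/
def UVP {n : ℕ} (F : MvPolynomial (Fin n) ℂ) : MvPolynomial (Fin 2 ⊕ Fin n) ℂ :=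
  MvPolynomial.X (Sum.inl 0) * MvPolynomial.X (Sum.inl 1) - MvPolynomial.rename Sum.inr F

/-- the hypersurface `U V = F` -/
def YY {n : ℕ} (F : MvPolynomial (Fin n) ℂ) : Set (Fin 2 ⊕ Fin n → ℂ) :=
  {y | y (Sum.inl 0) * y (Sum.inl 1) = MvPolynomial.eval (fun j => y (Sum.inr j)) F}

/-- weakly contractible: every map of a sphere extends to the ball (`k = 0`: not empty) -/
def WCon (Y : Type) [TopologicalSpace Y] : Prop :=
  ∀ (k : ℕ) (v : Metric.sphere (0 : Fin k → ℝ) 1 → Y), Continuous v →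
    ∃ w : Metric.closedBall (0 : Fin k → ℝ) 1 → Y, Continuous w ∧
      ∀ x : Metric.sphere (0 : Fin k → ℝ) 1, w ⟨x.1, Metric.sphere_subset_closedBall x.2⟩ = v x

/-- the zero set of `F` is smooth -/
def SmZ {n : ℕ} (F : MvPolynomial (Fin n) ℂ) : Prop :=
  ∀ z : Fin n → ℂ, MvPolynomial.eval z F = 0 → ∃ j, MvPolynomial.eval z (MvPolynomial.pderiv j F) ≠ 0

/-! ### Targets of the chapters -/

/-- chapter K -/
def TgtK : Prop := ∀ k : ℕ, IsEmpty (MvPolynomial (Fin 2 ⊕ Fin 12) (QR (UVP FP)) ≃ₐ[ℂ]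
  MvPolynomial (Fin k) ℂ)

/-- chapter A, smoothness of the zero set of `F` -/
def TgtZ : Prop := SmZ FP

/-- chapter A, smoothness of the ring -/
def TgtA : Prop := ∀ (n : ℕ) (F : MvPolynomial (Fin n) ℂ), SmZ F → Algebra.Smooth ℂ (QR (UVP F))

/-- chapter A, flexibility -/
def TgtF : Prop := ∀ (n : ℕ) (F : MvPolynomial (Fin n) ℂ), SmZ F → (∃ z, MvPolynomial.eval z F = 0) →
  Flexible (MvPolynomial (Fin 2 ⊕ Fin n) (QR (UVP F)))

/-- chapter T -/
def TgtT : Prop := WCon (YY FP)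

/-- chapter S -/
def TgtS : Prop := ∀ (n : ℕ) (F : MvPolynomial (Fin n) ℂ), 1 ≤ n → SmZ F →
  (∃ z, MvPolynomial.eval z F = 0) → WCon (YY F) →
  ∃ g : (Fin (2 * n + 3) → ℂ) → ((Fin 2 ⊕ Fin n) ⊕ (Fin 2 ⊕ Fin n) → ℂ),
    ContDiff ℝ (⊤ : ℕ∞) g ∧ (∀ x, Function.Injective (fderiv ℝ g x)) ∧
    Topology.IsEmbedding g ∧
    Set.range g = {x | (fun i => x (Sum.inl i)) ∈ YY F}

end

end Pool.Agent.Helper72.FX
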