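import Pool.Agent.Helper21.FX.DefF

/-!
# Project FX, chapter K, part 2: naturality and the ring homomorphism `B9 → P0`
-/

set_option autoImplicit false

namespace Pool.Agent.Helper72.FX

open Polynomial Pool.Agent.Helper21.FX

noncomputable section

section nat

variable {A A' : Type} [CommRing A] [Algebra ℂ A] [CommRing A'] [Algebra ℂ A'] (f : A →ₐ[ℂ] A')

theorem map_nu (a b t : A) : f (nu a b t) = nu (f a) (f b) (f t) := by
  simp only [nu, map_sub, map_add, map_mul, map_pow, map_ofNat]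

theorem map_kp (i : Fin 3) (a b t : A) :
    f (MvPolynomial.aeval ![a, b, t] (kp i)) = MvPolynomial.aeval ![f a, f b, f t] (kp i) := by
  rw [MvPolynomial.comp_aeval_apply]
  congr 1
  congr 1
  funext j
  fin_cases j <;> rfl

theorem map_kx (a b t : A) : f (kx a b t) = kx (f a) (f b) (f t) := map_kp f 0 a b t
theorem map_ky (a b t : A) : f (ky a b t) = ky (f a) (f b) (f t) := map_kp f 1 a b t
theorem map_kz (a b t : A) : f (kz a b t) = kz (f a) (f b) (f t) := map_kp f 2 a b t

theorem map_kappa (a b t : A) : f (kappa a b t) = kappa (f a) (f b) (f t) := by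
  simp only [kappa, map_sub, map_mul, map_pow, map_kx, map_ky, map_kz]

theorem map_E1 (a b t r n s m : A) :
    f (E1 a b t r n s m) = E1 (f a) (f b) (f t) (f r) (f n) (f s) (f m) := by
  simp only [E1, map_sub, map_mul, map_nu]

theorem map_E2 (a b t r n s m x y z : A) :
    f (E2 a b t r n s m x y z) =
      E2 (f a) (f b) (f t) (f r) (f n) (f s) (f m) (f x) (f y) (f z) := by
  simp only [E2, map_sub, map_add, map_neg, map_mul, map_pow, map_ofNat, map_kx, map_ky, map_kz,
    map_kappa]

end nat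

/-- the embedding of `B7` in `P0` -/
def i70 : B7 →ₐ[ℂ] P0 := MvPolynomial.aeval ![a0, b0, t0, s0, m0, x0, z0]

/-- the ring homomorphism `B9 → P0` (`ρ` is missing) -/
def i90 : B9 →+* P0 := eval₂RingHom (eval₂RingHom i70.toRingHom n0) y0

theorem i90_C (p : B7) : i90 (C (C p)) = i70 p := by simp [i90]
theorem i90_n : i90 (C X) = n0 := by simp [i90]
theorem i90_y : i90 X = y0 := by simp [i90]
theorem i70_a : i70 a7 = a0 := by simp [i70, a7]
theorem i70_b : i70 b7 = b0 := by simp [i70, b7]
theorem i70_t : i70 t7 = t0 := by simp [i70, t7]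
theorem i70_s : i70 s7 = s0 := by simp [i70, s7]
theorem i70_m : i70 m7 = m0 := by simp [i70, m7]
theorem i70_x : i70 x7 = x0 := by simp [i70, x7]
theorem i70_z : i70 z7 = z0 := by simp [i70, z7]

/-- image of `D` -/
theorem i90_D : i90 (C (C D7)) = 1 + t0 * s0 * (m0 * kx a0 b0 t0 + s0 * x0) := by
  simp only [i90_C, D7, map_add, map_mul, map_one, map_kx, i70_a, i70_b, i70_t, i70_s, i70_m, i70_x]

/-- image of the first pencil -/
theorem i90_p1 : i90 (C (pel s7 q7)) = (s0 - r0) * n0 - E10 := by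
  simp only [pel, q7, nu7, map_sub, map_mul, i90_C, i90_n, map_nu, i70_a, i70_b, i70_t, i70_s,
    i70_m, E10, E1]
  ring

theorem i90_h : i90 (C h8) = m0 * kappa a0 b0 t0 * n0 + (x0 - s0 * (t0 * m0 * ky a0 b0 t0 * x0 -
    2 * m0 * kz a0 b0 t0 * z0 - s0 * z0 ^ 2)) := by
  rw [h8, RingHom.map_add, RingHom.map_add, RingHom.map_mul, RingHom.map_mul, i90_C, i90_C, i90_n]
  simp only [map_sub, map_mul, map_pow, map_ofNat,
    map_kappa, map_ky, map_kz, i70_a, i70_b, i70_t, i70_s, i70_m, i70_x, i70_z]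

/-- image of the second pencil -/
theorem i90_p2 : i90 (pel (C D7) h8) =
    E20 + (s0 - r0) * (t0 * s0 * x0 * y0 - s0 * z0 ^ 2) := by
  have h1 : i90 (C (C D7) * X - C h8) = i90 (C (C D7)) * i90 X - i90 (C h8) := by
    have h2 := i90.map_sub (C (C D7) * X) (C h8)
    rw [i90.map_mul] at h2
    exact h2
  rw [pel, h1, i90_D, i90_y, i90_h, E20, E2]
  ring

end

end Pool.Agent.Helper72.FX
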