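import Pool.Agent.Helper72.FX.C1Defs

/-!
# Project FX, chapter K, part 2: statements CH1, CH2, CH12 of the chain (complete proofs in the docstrings)

Read `Helper72/FX/KDefs.lean`, `Helper72/FX/StK.lean`, `Helper21/FX/DefF.lean` (rings `P3 B7 B8 B9 P0`, elements
`a7 b7 t7 s7 m7 x7 z7 nu7 D7 q7 h8 I8`, `a0 ... z0 E10 E20 D0`) and `Helper72/FX/C1Defs.lean` (`i90 : B9 → P0` and its values) first.
-/

set_option autoImplicit false

namespace Pool.Agent.Helper72.FX

open Polynomial Pool.Agent.Helper21.FX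

/-- conclusion of `StEXT` -/
def EXTc : Prop := ∀ (A : Type) [CommRing A] [IsNoetherianRing A] (I : Ideal A)
  (Λ : Type) [AddCommGroup Λ] (χ : AF A (kil I) Λ), ∃ ψ : AF A[X] (kil (I.map C)) Λ,
    ∀ (M : Type) [AddCommGroup M] [Module A M], Module.Finite A M → kil I M →
      ψ.f (PolynomialModule A M) = χ.f M

/-- conclusion of `StZP` -/
def ZPc : Prop := (∀ n : ℕ, ZZ (MvPolynomial (Fin n) ℂ) ⊥ 1) ∧
  ∀ (n : ℕ) (i : Fin (n + 1)), ZZ (MvPolynomial (Fin (n + 1)) ℂ) (Ideal.span {MvPolynomial.X i}) 1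

/-- conclusion of `StPEN` -/
def PENc : Prop := ∀ (B : Type) [CommRing B] [IsNoetherianRing B] (I : Ideal B) (E s : B) (Λ : Type)
  [AddCommGroup Λ] (χB : AF B (kil I) Λ) (χ0 : AF B[X] (kil (I.map C ⊔ Ideal.span {C E, C s})) Λ),
  (∀ (N : Type) [AddCommGroup N] [Module B N], Module.Finite B N → kil I N →
    (∀ y : N, E • y = 0) →
    χB.f N = χ0.f (Ck (C s : B[X]) (PolynomialModule B N)) -
      χ0.f (Kn (C s : B[X]) (PolynomialModule B N))) →
  ∃ χ : AF B[X] (kil (pid I E s)) Λ,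
    (∀ (N : Type) [AddCommGroup N] [Module B[X] N], Module.Finite B[X] N → kil (pid I E s) N →
      (∀ y : N, (C E : B[X]) • y = 0) → χ.f N = χ0.f N) ∧
    (∀ (M : Type) [AddCommGroup M] [Module B M], Module.Finite B M → kil I M →
      χ.f (Ck (pel E s) (PolynomialModule B M)) - χ.f (Kn (pel E s) (PolynomialModule B M)) = χB.f M)

theorem extc (h : StEXT) (h1 : StDQ) (h2 : StSNK) (h3 : StRES) : EXTc := h h1 h2 h3
theorem zpc (h : StZP) (h1 : StHOM) (h2 : StPMX) (h3 : StZT) : ZPc := h h1 h2 h3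
theorem penc (h : StPEN) (h1 : StSNK) (h2 : StPMX) (h3 : StDEV) (h4 : StPTO) (h5 : StPCM)
    (h6 : StPEA) (h7 : StPEB) : PENc := h h1 h2 h3 h4 h5 h6 h7

/-- **PMQ** (50 lines).  PROOF.  The map `A[X] → PolynomialModule A (A ⧸ J)`, `p ↦ p • single 0 1` (coefficients of `p` modulo
`J`; it is the composition of `PolynomialModule.equivPolynomialSelf.symm` with `pmap J.mkQ`), is surjective with kernel
`J.map C` (`Ideal.mem_map_C_iff`: all coefficients in `J`). -/
def StPMQ : Prop := ∀ (A : Type) [CommRing A] (J : Ideal A),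
  Nonempty (PolynomialModule A (A ⧸ J) ≃ₗ[A[X]] A[X] ⧸ J.map C)

/-- **PMC** (70 lines).  PROOF.  `C x` acts on `M[X]` coefficientwise.  `pmap` of `M → M / x M` is surjective with kernel
`pmap (range) = C x M[X]` (`PMX`, exactness of `pmap` for `M -x-> M → M/xM`); `pmap` of the inclusion `ker x → M` is injective
with range `ker (C x)` (`PMX`, exactness for `ker x → M -x-> M`). -/
def StPMC : Prop := StPMX → ∀ (A : Type) [CommRing A] (M : Type) [AddCommGroup M] [Module A M] (x : A),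
  Nonempty (Ck (C x : A[X]) (PolynomialModule A M) ≃ₗ[A[X]] PolynomialModule A (Ck x M)) ∧
  Nonempty (Kn (C x : A[X]) (PolynomialModule A M) ≃ₗ[A[X]] PolynomialModule A (Kn x M))

/-- **CKQ** (40 lines, easy). -/
def StCKQ : Prop := ∀ (A : Type) [CommRing A] (J : Ideal A) (x : A),
  Nonempty (Ck x (A ⧸ J) ≃ₗ[A] A ⧸ (J ⊔ Ideal.span {x})) ∧
  ((∀ y, x * y ∈ J → y ∈ J) → Subsingleton (Kn x (A ⧸ J)))

/-- **EXM** (extension to `MvPolynomial (Fin n) A`; 120 lines).  PROOF.  Induction on `n`.  `n = 0`: `RES` along the isomorphism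
`C : A → MvPolynomial (Fin 0) A` (`MvPolynomial.isEmptyAlgEquiv`).  `n + 1`: `EXTc` for `A' = MvPolynomial (Fin n) A` and the
function of step `n`, then `RES` along the isomorphism `(MvPolynomial.finSuccEquiv A n).symm : A'[X] → MvPolynomial (Fin (n+1)) A`.
Value at `R ⧸ J.map C`: as a module over `A'[X]` (restriction) it is isomorphic to `A'[X] ⧸ (J.map C).map C`, which is
`PolynomialModule A' (A' ⧸ J.map C)` (`PMQ`); `AF.equiv`, then the value given by `EXTc` and by step `n`. -/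
def StEXM : Prop := EXTc → StRES → StPMQ → ∀ (A : Type) [CommRing A] [IsNoetherianRing A] (I : Ideal A)
  (Λ : Type) [AddCommGroup Λ] (χ : AF A (kil I) Λ) (n : ℕ),
  ∃ ψ : AF (MvPolynomial (Fin n) A) (kil (I.map MvPolynomial.C)) Λ, ∀ J : Ideal A, I ≤ J →
    ψ.f (MvPolynomial (Fin n) A ⧸ J.map MvPolynomial.C) = χ.f (A ⧸ J)

/-- the parity function (`PAR` of helper21) -/
def PARx : Prop := ∃ par : AF P3 (kil (Ideal.span {nu3})) (ZMod 2),
  par.f (P3 ⧸ Ideal.span {nu3}) = 0 ∧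
  par.f (P3 ⧸ Ideal.span {(MvPolynomial.X 0 : P3), MvPolynomial.X 1}) = 1

/-- the function `χ₀` of the first pencil -/
def CAx : Prop := ∃ χ0 : AF B8 (kil (Ideal.span {C s7, C nu7})) (ZMod 2),
  χ0.f (B8 ⧸ Ideal.span {(C s7 : B8), C nu7}) = 0 ∧
  χ0.f (B8 ⧸ Ideal.span {(C s7 : B8), C a7, C b7}) = 1

/-- **CA** (120 lines).  PROOF.  `A4 = P3[X]` (`X = σ`).  `RES` along `C : P3 → A4`, `I' = span {nu3}`, `I = span {C nu3, X}` (every
polynomial is `C` of its constant term modulo `X`) gives `χ4`; `A4 ⧸ span {C nu3, X}` is as a `P3`-module isomorphic to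
`P3 ⧸ span {nu3}` and `A4 ⧸ span {X, C (X 0), C (X 1)}` to `P3 ⧸ span {X 0, X 1}` (constant coefficient), so the values of `χ4` are
`0` and `1`.  `EXM` with `n = 4` (`J = I` and `J = span {X, C (X 0), C (X 1)} ≥ I`, because `ν ∈ (a, b)`).  `RES` along the
isomorphism `Φ : MvPolynomial (Fin 4) A4 → B8`: `a, b, t, σ ↦ C a7, C b7, C t7, C s7`, the four new variables `↦ C m7, C x7, C z7, X`;
inverse `eval₂RingHom (MvPolynomial.eval₂Hom … ![C (C (X 0)), C (C (X 1)), C (C (X 2)), C X, X 0, X 1, X 2]) (X 3)`.  `Φ` maps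
`I.map C` onto `span {C s7, C nu7}` (`map_nu`) and `J.map C` onto `span {C s7, C a7, C b7}`; the values by `AF.equiv`. -/
def StCA : Prop := PARx → StEXM → EXTc → StRES → StPMQ → CAx

/-- **CB** (condition of the first pencil; 90 lines).  PROOF.  `T(N) = χ0 (Ck (C q7) N[X]) - χ0 (Kn (C q7) N[X])` is additive on the
class `kil (span {s7})` (`PMX`: `N ↦ N[X]` is exact; kernels and cokernels of `C q7` are killed by `C s7` and by `C q7`, so by
`C nu7 = C q7 + C s7 C m7`; `SNK` for the rows `N'[X] → N[X] → N''[X]`, three times multiplication by `C q7`).  `ZPc.2 6 3` :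
`ZZ B7 (span {s7}) 1`; modules killed by `1` are zero (`AF.of_subsingleton`).  Value at `B7 ⧸ span {s7}`: `N[X] ≅ B8 ⧸ span {C s7}`
(`PMQ`, `Ideal.map_span`), `C q7` is a nonzerodivisor modulo `C s7` (`C s7` is prime, `C s7 ∤ C q7`: put `σ = 0`: `q7 ↦ ν ≠ 0`), so by
`CKQ` the value is `χ0 (B8 ⧸ (span {C s7} ⊔ span {C q7})) - χ0 (0) = χ0 (B8 ⧸ span {C s7, C nu7}) = 0`.  So `T = 0`. -/
def StCB : Prop := ZPc → StSNK → StPMX → StPMQ → StCKQ →
  ∀ χ0 : AF B8 (kil (Ideal.span {C s7, C nu7})) (ZMod 2),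
    χ0.f (B8 ⧸ Ideal.span {(C s7 : B8), C nu7}) = 0 →
    ∀ (N : Type) [AddCommGroup N] [Module B7 N], Module.Finite B7 N → (∀ y : N, s7 • y = 0) →
      χ0.f (Ck (C q7 : B8) (PolynomialModule B7 N)) -
        χ0.f (Kn (C q7 : B8) (PolynomialModule B7 N)) = 0

/-- the function `χ_A` -/
def CCx : Prop := ∃ χA : AF B8 (kil I8) (ZMod 2),
  (∀ (M : Type) [AddCommGroup M] [Module B7 M], Module.Finite B7 M →
    χA.f (Ck (pel s7 q7) (PolynomialModule B7 M)) - χA.f (Kn (pel s7 q7) (PolynomialModule B7 M)) = 0) ∧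
  χA.f (B8 ⧸ I8) = 0 ∧ χA.f (B8 ⧸ Ideal.span {(C s7 : B8), C a7, C b7}) = 1

/-- **CC** (first pencil; 80 lines).  PROOF.  `PENc` with `B = B7`, `I = ⊥`, `E = s7`, `s = q7`, `χB = 0`, `χ0` = `CAx` restricted
(`AF.mono`: `(⊥).map C ⊔ span {C s7, C q7}` contains `C s7` and `C nu7`); the condition is `CB`.  The second clause of `PENc` is the
first clause of `CCx`.  `χA (B8 ⧸ I8) = 0`: `M = B7`: `PolynomialModule B7 B7 ≃ B8` (`equivPolynomialSelf`), `pel s7 q7 ≠ 0` is a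
nonzerodivisor of the domain `B8`, so `Kn` is zero, `Ck ≃ B8 ⧸ span {pel s7 q7} = B8 ⧸ I8` (`pid ⊥ s7 q7`, `Ideal.map_bot`; `CKQ`
with `J = ⊥` or by hand).  `B8 ⧸ span {C s7, C a7, C b7}` is killed by `C s7` and by `I8` (`nu7 ∈ (a7, b7)`), so its value is the
value of `χ0`, which is `1`. -/
def StCC : Prop := PENc → CAx → StCB → ZPc → StSNK → StPMX → StPMQ → StCKQ → CCx

/-- **CI** (70 lines).  PROOF.  Let `N` be finite over `B8`, killed by `I8` and `C D7`.  Put `u = - t7 (m7 kx + s7 x7) ∈ B7`; `D7 = 1 - s7 u`,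
so `C s7 C u = 1` on `N`, and `X` acts on `N` as `c = u q7` (`C s7 X = C q7` on `N`).  So `N` is finite over `B7` (structure `compHom C`;
every polynomial `p(X)` acts as `p(c) ∈ B7`).  Let `M = N` over `B7` (`s7 u = 1` on `M`).  Evaluation `ev : M[X] → N`, `X ↦ c`
(`plift` of the identity), is surjective, kernel = `(X - c) M[X]` = `(C s7 X - C q7) M[X]` (`C u (C s7 X - C q7) = X - c` on `M[X]`; an
element of the kernel is `∑ m_i X^i` with `∑ c^i m_i = 0`, so `∑ (X^i - c^i) m_i`).  `pel s7 q7` is injective on `M[X]`: if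
`pel s7 q7 • g = 0` then `(X - c) g = 0` and `X - c` is monic (look at the top coefficient).  So `Ck ≃ N`, `Kn` is zero and the
hypothesis gives `χA.f N = 0`. -/
def StCI : Prop := ∀ χA : AF B8 (kil I8) (ZMod 2),
  (∀ (M : Type) [AddCommGroup M] [Module B7 M], Module.Finite B7 M →
    χA.f (Ck (pel s7 q7) (PolynomialModule B7 M)) - χA.f (Kn (pel s7 q7) (PolynomialModule B7 M)) = 0) →
  ∀ (N : Type) [AddCommGroup N] [Module B8 N], Module.Finite B8 N → kil I8 N →
    (∀ y : N, (C D7 : B8) • y = 0) → χA.f N = 0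

/-- `F1` of helper21 -/
def F1x : Prop := I8.IsPrime ∧ (C D7 : B8) ∉ I8

/-- the function `χ_Γ` on `B9` -/
def CDx : Prop := ∃ χG : AF B9 (kil (pid I8 (C D7) h8)) (ZMod 2),
  (∀ (N : Type) [AddCommGroup N] [Module B9 N], Module.Finite B9 N → kil (pid I8 (C D7) h8) N →
    (∀ y : N, (C (C D7) : B9) • y = 0) → χG.f N = 0) ∧
  χG.f (B9 ⧸ pid I8 (C D7) h8) = 0 ∧
  ∃ (N : Type) (_ : AddCommGroup N) (_ : Module B9 N), Module.Finite B9 N ∧
    kil (pid I8 (C D7) h8) N ∧ χG.f N ≠ 0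

/-- **CD** (second pencil; 90 lines).  PROOF.  `PENc` with `B = B8`, `I = I8`, `E = C D7`, `s = h8`, `χB = χA`, `χ0 = 0` (the zero
function); the condition is `CI`.  First clause: clause (i) of `PENc`.  Value: `M = B8 ⧸ I8` in clause (ii): `PMQ`:
`M[X] ≃ B9 ⧸ I8.map C`, `I8.map C` is prime (`Ideal.isPrime_map_C_of_isPrime`) and does not contain `pel (C D7) h8` (coefficient of
`X` is `C D7 ∉ I8`; `Ideal.mem_map_C_iff`), so `CKQ`: `Ck ≃ B9 ⧸ pid I8 (C D7) h8`, `Kn = 0`; so the value is `χA (B8 ⧸ I8) = 0`.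
Nontrivial: clause (ii) for `M = B8 ⧸ span {C s7, C a7, C b7}` (killed by `I8`): `χG(Ck) - χG(Kn) = 1`, so one of the two modules
(both finite and killed by `pid I8 (C D7) h8`) has a nonzero value. -/
def StCD : Prop := PENc → CCx → StCI → F1x → StPMX → StPMQ → StCKQ → CDx

/-- the function `χ` on `P0`: the start of `CH3` -/
def CEx : Prop := ∃ χ : AF P0 (kil (Ideal.span {E10, E20, s0 - r0})) (ZMod 2),
  χ.f (P0 ⧸ Ideal.span {E10, E20, s0 - r0}) = 0 ∧
  (∀ (N : Type) [AddCommGroup N] [Module P0 N], Module.Finite P0 N →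
    kil (Ideal.span {E10, E20, s0 - r0}) N → (∀ y : N, D0 • y = 0) → χ.f N = 0) ∧
  ∃ (N : Type) (_ : AddCommGroup N) (_ : Module P0 N), Module.Finite P0 N ∧
    kil (Ideal.span {E10, E20, s0 - r0}) N ∧ χ.f N ≠ 0

/-- **CE** (transfer to `P0`; 110 lines).  PROOF.  `RES` along `i90 : B9 → P0`, `I' = pid I8 (C D7) h8` (generated by
`C (pel s7 q7)` and `pel (C D7) h8`), `I = span {E10, E20, s0 - r0}`: `i90_p1`, `i90_p2` give `I'.map i90 ≤ I`; every element of `P0`
is `i90` of something modulo `s0 - r0` (the set of these elements is a subring containing the constants and the variables;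
`r0 ≡ s0`).  Let `j : P0 → B9` be the homomorphism `a0, b0, t0, r0, n0, s0, m0, x0, y0, z0 ↦ C (C a7), C (C b7), C (C t7),
C (C s7), C X, C (C s7), C (C m7), C (C x7), X, C (C z7)`.  `j (i90 p) = p`, `j (s0 - r0) = 0`, so by `i90_p1`, `i90_p2`
`j E10 = - C (pel s7 q7)`, `j E20 = pel (C D7) h8`, and `i90 (j p) - p ∈ span {s0 - r0}`.  So `i90` induces an isomorphism
`B9 ⧸ I' → P0 ⧸ I` of `B9`-modules: value `0`.  If `D0` kills `N` then `C (C D7)` kills `N` as a `B9`-module (`i90_D`, `s0 = r0` on `N`):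
value `0`.  The nontrivial module of `CDx` becomes a `P0`-module by `j`; it is killed by `I`, and `i90 p` acts on it as
`j (i90 p) = p`. -/
def StCE : Prop := StRES → CDx → CEx

end Pool.Agent.Helper72.FX
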