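import Pool.Agent.Helper72.FX.Defs

/-!
# Project FX (MP_3bffab, S00143): assembly of the frozen statement from the targets of the chapters
-/

set_option autoImplicit false

namespace Pool.Agent.Helper72.FX

open Pool.Agent.Helper72.KRF

noncomputable section

theorem FP_zero : ∃ z, MvPolynomial.eval z FP = 0 := by
  refine ⟨0, ?_⟩
  simp [FP, FF, E1, E2, nu]

/-- the coordinate ring of `Y × ℂ¹⁴` -/
abbrev AX : Type := MvPolynomial (Fin 2 ⊕ Fin 12) (QR (UVP FP))

/-- the numbering of the coordinates -/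
def ee : (Fin 2 ⊕ Fin 12) ⊕ (Fin 2 ⊕ Fin 12) ≃ Fin 28 :=
  (Equiv.sumCongr finSumFinEquiv finSumFinEquiv).trans finSumFinEquiv

/-- generators of `AX` -/
def vx : (Fin 2 ⊕ Fin 12) ⊕ (Fin 2 ⊕ Fin 12) → AX :=
  Sum.elim (fun i => MvPolynomial.C (gen (UVP FP) i)) MvPolynomial.X

/-- the presentation -/
def pix : MvPolynomial (Fin 28) ℂ →ₐ[ℂ] AX := MvPolynomial.aeval (fun i => vx (ee.symm i))

theorem pix_surj : Function.Surjective pix := by
  intro x
  have h0 : ∀ c : QR (UVP FP), ∃ p, pix p = MvPolynomial.C c := by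
    intro c
    obtain ⟨q, rfl⟩ := Ideal.Quotient.mk_surjective c
    refine ⟨MvPolynomial.rename (fun i => ee (Sum.inl i)) q, ?_⟩
    rw [pix, MvPolynomial.aeval_rename]
    have h1 : (fun i => vx (ee.symm i)) ∘ (fun i => ee (Sum.inl i)) =
        fun i => MvPolynomial.C (σ := Fin 2 ⊕ Fin 12) (gen (UVP FP) i) := by
      funext i
      simp [vx]
    rw [h1, mk_aeval]
    have := MvPolynomial.comp_aeval_apply (R := ℂ) (f := gen (UVP FP))
      ((Algebra.ofId (QR (UVP FP)) AX).restrictScalars ℂ) q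
    exact this.symm
  induction x using MvPolynomial.induction_on with
  | C a => exact h0 a
  | add p q hp hq =>
    obtain ⟨u, hu⟩ := hp
    obtain ⟨v, hv⟩ := hq
    exact ⟨u + v, by rw [map_add, hu, hv]⟩
  | mul_X p i hp =>
    obtain ⟨u, hu⟩ := hp
    refine ⟨u * MvPolynomial.X (ee (Sum.inr i)), ?_⟩
    rw [map_mul, hu, pix, MvPolynomial.aeval_X]
    simp [vx]

/-- the point of `AX` given by a point of `Y × ℂ¹⁴` -/
def ptx (y : (Fin 2 ⊕ Fin 12) ⊕ (Fin 2 ⊕ Fin 12) → ℂ) (hy : (fun i => y (Sum.inl i)) ∈ YY FP) :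
    AX →ₐ[ℂ] ℂ :=
  MvPolynomial.aevalTower (Ideal.Quotient.liftₐ _ (MvPolynomial.aeval fun i => y (Sum.inl i)) (by
    intro a ha
    obtain ⟨q, rfl⟩ := Ideal.mem_span_singleton'.1 ha
    rw [map_mul]
    have h : MvPolynomial.aeval (fun i => y (Sum.inl i)) (UVP FP) = 0 := by
      rw [UVP, map_sub, map_mul, MvPolynomial.aeval_X, MvPolynomial.aeval_X,
        MvPolynomial.aeval_rename]
      have h2 : y (Sum.inl (Sum.inl 0)) * y (Sum.inl (Sum.inl 1)) =
        MvPolynomial.eval (fun j => y (Sum.inl (Sum.inr j))) FP := hy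
      rw [h2, sub_eq_zero]
      rfl
    rw [h, mul_zero])) (fun i => y (Sum.inr i))

theorem zeros_pix (x : Fin 28 → ℂ) : (∀ p ∈ RingHom.ker pix, MvPolynomial.eval x p = 0) ↔
    (fun i => x (ee (Sum.inl i))) ∈ YY FP := by
  constructor
  · intro h
    have h1 := h (MvPolynomial.rename (fun i => ee (Sum.inl i)) (UVP FP)) (by
      rw [RingHom.mem_ker, pix, MvPolynomial.aeval_rename]
      have h1 : (fun i => vx (ee.symm i)) ∘ (fun i => ee (Sum.inl i)) =
          fun i => MvPolynomial.C (σ := Fin 2 ⊕ Fin 12) (gen (UVP FP) i) := by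
        funext i
        simp [vx]
      rw [h1]
      have := MvPolynomial.comp_aeval_apply (R := ℂ) (f := gen (UVP FP))
        ((Algebra.ofId (QR (UVP FP)) AX).restrictScalars ℂ) (UVP FP)
      rw [aeval_F, map_zero] at this
      exact this.symm)
    rw [MvPolynomial.eval_rename, UVP, map_sub, map_mul, MvPolynomial.eval_X, MvPolynomial.eval_X,
      MvPolynomial.eval_rename, sub_eq_zero] at h1
    exact h1
  · intro h p hp
    have h1 : (ptx (fun i => x (ee i)) h).comp pix = MvPolynomial.aeval x := by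
      refine MvPolynomial.algHom_ext fun i => ?_
      rw [AlgHom.comp_apply, pix, MvPolynomial.aeval_X, MvPolynomial.aeval_X]
      obtain ⟨j, rfl⟩ := ee.surjective i
      rw [Equiv.symm_apply_apply]
      rcases j with j | j
      · change ptx _ h (MvPolynomial.C (gen (UVP FP) j)) = _
        rw [ptx, MvPolynomial.aevalTower_C]
        change MvPolynomial.aeval _ (MvPolynomial.X j) = _
        rw [MvPolynomial.aeval_X]
      · change ptx _ h (MvPolynomial.X j) = _
        rw [ptx, MvPolynomial.aevalTower_X]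
    have h2 := congrArg (fun f => f p) h1
    simp only [AlgHom.comp_apply] at h2
    rw [RingHom.mem_ker.1 hp, map_zero] at h2
    exact h2.symm

theorem asm (hK : TgtK) (hZ : TgtZ) (hA : TgtA) (hF : TgtF) (hT : TgtT) (hS : TgtS) :
    ∃ (A : Type) (_ : CommRing A) (_ : Algebra ℂ A), Algebra.Smooth ℂ A ∧
      (∀ φ : A →ₐ[ℂ] ℂ, ∀ δ : A →ₗ[ℂ] ℂ,
        (∀ a b : A, δ (a * b) = φ a * δ b + φ b * δ a) →
        δ ∈ Submodule.span ℂ
          {ℓ : A →ₗ[ℂ] ℂ | ∃ D : Derivation ℂ A A,
            (∀ a : A, ∃ k : ℕ, (⇑D)^[k] a = 0) ∧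
            ℓ = φ.toLinearMap.comp D.toLinearMap}) ∧
      (∀ k : ℕ, IsEmpty (A ≃ₐ[ℂ] MvPolynomial (Fin k) ℂ)) ∧
      ∃ (m n : ℕ) (π : MvPolynomial (Fin m) ℂ →ₐ[ℂ] A), Function.Surjective π ∧
        ∃ g : (Fin n → ℂ) → (Fin m → ℂ),
          ContDiff ℝ (⊤ : ℕ∞) g ∧
          (∀ x, Function.Injective (fderiv ℝ g x)) ∧
          Topology.IsEmbedding g ∧
          Set.range g = {x : Fin m → ℂ | ∀ p ∈ RingHom.ker π, MvPolynomial.eval x p = 0} := by
  refine ⟨AX, inferInstance, inferInstance, ?_, hF 12 FP hZ FP_zero, hK, 28, 27, pix, pix_surj, ?_⟩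
  · have : Algebra.Smooth ℂ (QR (UVP FP)) := hA 12 FP hZ
    have h2 : Algebra.Smooth (QR (UVP FP)) AX :=
      { formallySmooth := inferInstance, finitePresentation := inferInstance }
    exact Algebra.Smooth.comp ℂ (QR (UVP FP)) AX
  · obtain ⟨g, hg1, hg2, hg3, hg4⟩ := hS 12 FP (by norm_num) hZ FP_zero hT
    let L : ((Fin 2 ⊕ Fin 12) ⊕ (Fin 2 ⊕ Fin 12) → ℂ) ≃L[ℝ] (Fin 28 → ℂ) :=
      ContinuousLinearEquiv.piCongrLeft ℝ (fun _ => ℂ) ee
    have hL : ∀ y i, L y i = y (ee.symm i) := by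
      intro y i
      obtain ⟨j, rfl⟩ := ee.surjective i
      rw [Equiv.symm_apply_apply]
      exact Equiv.piCongrLeft_apply_apply (P := fun _ => ℂ) ee y j
    refine ⟨fun x => L (g x), L.contDiff.comp hg1, fun x => ?_, ?_, ?_⟩
    · have hd : DifferentiableAt ℝ g x := hg1.differentiable (by simp) x
      have h1 : fderiv ℝ (fun x => L (g x)) x = L.toContinuousLinearMap.comp (fderiv ℝ g x) :=
        (L.toContinuousLinearMap.hasFDerivAt.comp x hd.hasFDerivAt).fderiv
      rw [h1]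
      exact L.injective.comp (hg2 x)
    · exact L.toHomeomorph.isEmbedding.comp hg3
    · ext x
      rw [Set.mem_ofPred_eq, zeros_pix]
      constructor
      · rintro ⟨y, rfl⟩
        have h1 : g y ∈ Set.range g := ⟨y, rfl⟩
        rw [hg4] at h1
        have h2 : (fun i => L (g y) (ee (Sum.inl i))) = fun i => g y (Sum.inl i) := by
          funext i
          rw [hL, Equiv.symm_apply_apply]
        exact h2 ▸ h1
      · intro hx
        have h1 : (fun j => x (ee j)) ∈ Set.range g := by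
          rw [hg4]
          exact hx
        obtain ⟨y, hy⟩ := h1
        refine ⟨y, ?_⟩
        funext i
        change L (g y) i = x i
        rw [hL, hy]
        exact congrArg x (ee.apply_symm_apply i)

end

end Pool.Agent.Helper72.FX
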