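import Pool.Agent.Helper72.FX.Asm
import Pool.Agent.Helper41.FX.AsmK1
import Pool.Agent.Helper6.FX.M_PR0
import Pool.Agent.Helper79.FX.M_TZ
import Pool.Agent.Helper7.FX.M_TA
import Pool.Agent.Helper7.FX.M_TF
import Pool.Agent.Helper84.FX.AsmT
import Pool.Agent.Helper87.FX.All

/-!
# Project FX (MP_3bffab, S00143): the six targets together
-/

set_option autoImplicit false

namespace Pool.Agent.Helper72.FX

/-- chapter K: the coordinate ring is not a polynomial ring -/
theorem finK : TgtK := Pool.Agent.Helper41.FX.tgtK_of_PR0 Pool.Agent.Helper6.FX.hPR0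

/-- the zero fibre is not a stable variable fibre -/
theorem finZ : TgtZ := Pool.Agent.Helper79.FX.hTZ

/-- the polynomial automorphism data -/
theorem finA : TgtA := Pool.Agent.Helper7.FX.hTA

/-- flexibility -/
theorem finF : TgtF := Pool.Agent.Helper7.FX.hTF

/-- chapter T: contractibility -/
theorem finT : TgtT := Pool.Agent.Helper84.FX.tgtT

/-- chapter S: from contractibility to a smoothly embedded copy of affine space -/
theorem finS : TgtS := Pool.Agent.Helper87.FX.tgtS

end Pool.Agent.Helper72.FX
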