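import Pool.Agent.Helper72.FX.Defs

/-!
# Project FX, chapter K: additive functions on modules (definitions and proved basic lemmas)

`MC A` = a class of `A`-modules, `kil I` = killed by the ideal `I`, `kpw I E` = killed by `I` and by a
power of `E`.  `AF A P Λ` = additive function on the finite modules of the class `P` with values in `Λ`.
-/

set_option autoImplicit false

namespace Pool.Agent.Helper72.FX

open Polynomial

/-- a class of modules -/
abbrev MC (A : Type) [CommRing A] : Type 1 := (M : Type) → [AddCommGroup M] → [Module A M] → Prop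

/-- killed by an ideal -/
def kil {A : Type} [CommRing A] (I : Ideal A) : MC A := fun M _ _ => ∀ x ∈ I, ∀ y : M, x • y = 0

/-- killed by an ideal and by a power of `E` -/
def kpw {A : Type} [CommRing A] (I : Ideal A) (E : A) : MC A :=
  fun M _ _ => (∀ x ∈ I, ∀ y : M, x • y = 0) ∧ ∃ k : ℕ, ∀ y : M, E ^ k • y = 0

/-- closed under submodules and quotients, contains zero -/
structure Gd {A : Type} [CommRing A] (P : MC A) : Prop where
  inj : ∀ (M N : Type) [AddCommGroup M] [Module A M] [AddCommGroup N] [Module A N] (i : M →ₗ[A] N),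
    Function.Injective i → P N → P M
  surj : ∀ (M N : Type) [AddCommGroup M] [Module A M] [AddCommGroup N] [Module A N] (p : M →ₗ[A] N),
    Function.Surjective p → P M → P N
  zero : P PUnit

/-- additive function on the finite modules of a class -/
structure AF (A : Type) [CommRing A] (P : MC A) (Λ : Type) [AddCommGroup Λ] where
  f : (M : Type) → [AddCommGroup M] → [Module A M] → Λ
  exact' : ∀ (M N Q : Type) [AddCommGroup M] [Module A M] [AddCommGroup N] [Module A N]
    [AddCommGroup Q] [Module A Q] (i : M →ₗ[A] N) (p : N →ₗ[A] Q), Module.Finite A N → P N →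
    Function.Injective i → Function.Exact i p → Function.Surjective p → f N = f M + f Q

section basic

variable {A : Type} [CommRing A] {P : MC A} {Λ : Type} [AddCommGroup Λ]

theorem gd_kil (I : Ideal A) : Gd (kil I) where
  inj M N _ _ _ _ i hi h x hx y := hi (by rw [map_smul, map_zero]; exact h x hx _)
  surj M N _ _ _ _ p hp h x hx y := by
    obtain ⟨z, rfl⟩ := hp y
    rw [← map_smul, h x hx, map_zero]
  zero x _ y := rfl

theorem gd_kpw (I : Ideal A) (E : A) : Gd (kpw I E) where
  inj M N _ _ _ _ i hi h := by
    refine ⟨(gd_kil I).inj M N i hi h.1, ?_⟩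
    obtain ⟨k, hk⟩ := h.2
    exact ⟨k, fun y => hi (by rw [map_smul, map_zero]; exact hk _)⟩
  surj M N _ _ _ _ p hp h := by
    refine ⟨(gd_kil I).surj M N p hp h.1, ?_⟩
    obtain ⟨k, hk⟩ := h.2
    refine ⟨k, fun y => ?_⟩
    obtain ⟨z, rfl⟩ := hp y
    rw [← map_smul, hk, map_zero]
  zero := ⟨(gd_kil I).zero, 0, fun _ => rfl⟩

theorem kil_mono {I J : Ideal A} (h : I ≤ J) {M : Type} [AddCommGroup M] [Module A M]
    (hM : kil J M) : kil I M := fun x hx => hM x (h hx)

theorem kil_sup {I J : Ideal A} {M : Type} [AddCommGroup M] [Module A M] (h : kil I M)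
    (h' : kil J M) : kil (I ⊔ J) M := by
  intro x hx y
  obtain ⟨u, hu, v, hv, rfl⟩ := Submodule.mem_sup.1 hx
  rw [add_smul, h u hu, h' v hv, add_zero]

theorem kil_span {x : A} {M : Type} [AddCommGroup M] [Module A M] (h : ∀ y : M, x • y = 0) :
    kil (Ideal.span {x}) M := by
  intro z hz y
  obtain ⟨u, rfl⟩ := Ideal.mem_span_singleton'.1 hz
  rw [mul_smul, h, smul_zero]

theorem kil_quot (I : Ideal A) : kil I (A ⧸ I) := by
  intro x hx y
  obtain ⟨z, rfl⟩ := Ideal.Quotient.mk_surjective y
  change (Ideal.Quotient.mk I (x * z) : A ⧸ I) = 0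
  exact Ideal.Quotient.eq_zero_iff_mem.2 (I.mul_mem_right z hx)

namespace AF

/-- restriction to a smaller class -/
def mono {Q : MC A} (χ : AF A P Λ)
    (h : ∀ (M : Type) [AddCommGroup M] [Module A M], Q M → P M) : AF A Q Λ where
  f := χ.f
  exact' M N R _ _ _ _ _ _ i p hf hN := χ.exact' M N R i p hf (h N hN)

theorem zero_punit (χ : AF A P Λ) (hP : Gd P) : χ.f PUnit = 0 := by
  have h := χ.exact' PUnit PUnit PUnit (LinearMap.id (R := A)) 0 inferInstance hP.zero
    Function.injective_id (by intro y; simp) (fun y => ⟨0, rfl⟩)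
  simpa using h

theorem of_subsingleton (χ : AF A P Λ) (hP : Gd P) (M : Type) [AddCommGroup M] [Module A M]
    [Subsingleton M] : χ.f M = 0 := by
  have h := χ.exact' M PUnit PUnit (0 : M →ₗ[A] PUnit) LinearMap.id inferInstance hP.zero
    (Function.injective_of_subsingleton _) (by intro y; simp) Function.surjective_id
  rw [zero_punit χ hP, add_zero] at h
  exact h.symm

theorem equiv (χ : AF A P Λ) (hP : Gd P) {M N : Type} [AddCommGroup M] [Module A M]
    [AddCommGroup N] [Module A N] (e : M ≃ₗ[A] N) (hf : Module.Finite A N) (hN : P N) :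
    χ.f M = χ.f N := by
  have h := χ.exact' M N PUnit e.toLinearMap 0 hf hN e.injective (by
    intro y; exact ⟨fun _ => ⟨e.symm y, by simp⟩, fun _ => rfl⟩) (fun y => ⟨0, rfl⟩)
  rw [zero_punit χ hP, add_zero] at h
  exact h.symm

theorem quot (χ : AF A P Λ) {N : Type} [AddCommGroup N] [Module A N] (S : Submodule A N)
    (hf : Module.Finite A N) (hN : P N) : χ.f N = χ.f S + χ.f (N ⧸ S) :=
  χ.exact' S N (N ⧸ S) S.subtype S.mkQ hf hN S.injective_subtype
    (LinearMap.exact_subtype_mkQ S) (Submodule.mkQ_surjective S)

end AF

end basic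

/-- cokernel of the multiplication by `x` -/
abbrev Ck {A : Type} [CommRing A] (x : A) (M : Type) [AddCommGroup M] [Module A M] : Type :=
  M ⧸ LinearMap.range (LinearMap.lsmul A M x)

/-- kernel of the multiplication by `x` -/
abbrev Kn {A : Type} [CommRing A] (x : A) (M : Type) [AddCommGroup M] [Module A M] : Type :=
  LinearMap.ker (LinearMap.lsmul A M x)

/-- all additive functions on the modules killed by `I` which vanish on the modules killed by `x`
and on `A / I` are zero (`x = 1`: no condition on `x`) -/
def ZZ (A : Type) [CommRing A] (I : Ideal A) (x : A) : Prop :=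
  ∀ (Λ : Type) [AddCommGroup Λ] (χ : AF A (kil I) Λ),
    (∀ (N : Type) [AddCommGroup N] [Module A N], Module.Finite A N → kil I N →
      (∀ y : N, x • y = 0) → χ.f N = 0) → χ.f (A ⧸ I) = 0 →
    ∀ (N : Type) [AddCommGroup N] [Module A N], Module.Finite A N → kil I N → χ.f N = 0

/-- there is a non-trivial additive function which vanishes on the ring -/
def NP (A : Type) [CommRing A] : Prop :=
  ∃ (Λ : Type) (_ : AddCommGroup Λ) (χ : AF A (kil (⊥ : Ideal A)) Λ), χ.f A = 0 ∧
    ∃ (N : Type) (_ : AddCommGroup N) (_ : Module A N), Module.Finite A N ∧ χ.f N ≠ 0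

section pm

variable {B : Type} [CommRing B]

theorem pm_smul_coeff_succ {M : Type} [AddCommGroup M] [Module B M] (E s : B)
    (g : PolynomialModule B M) (n : ℕ) :
    (((C E * X - C s : B[X]) • g).coeff (n + 1)) = E • g.coeff n - s • g.coeff (n + 1) := by
  have h1 : (C E * X - C s : B[X]) • g = (monomial 1 E : B[X]) • g - (monomial 0 s : B[X]) • g := by
    rw [← sub_smul]
    congr 1
    rw [← C_mul_X_eq_monomial, monomial_zero_left]
  rw [h1]
  have h2 : ((monomial 1 E : B[X]) • g - (monomial 0 s : B[X]) • g).coeff (n + 1) =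
      ((monomial 1 E : B[X]) • g).coeff (n + 1) - ((monomial 0 s : B[X]) • g).coeff (n + 1) := rfl
  rw [h2, PolynomialModule.monomial_smul_apply, PolynomialModule.monomial_smul_apply]
  simp

theorem pm_smul_coeff_zero {M : Type} [AddCommGroup M] [Module B M] (E s : B)
    (g : PolynomialModule B M) :
    (((C E * X - C s : B[X]) • g).coeff 0) = - (s • g.coeff 0) := by
  have h1 : (C E * X - C s : B[X]) • g = (monomial 1 E : B[X]) • g - (monomial 0 s : B[X]) • g := by
    rw [← sub_smul]
    congr 1
    rw [← C_mul_X_eq_monomial, monomial_zero_left]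
  rw [h1]
  have h2 : ((monomial 1 E : B[X]) • g - (monomial 0 s : B[X]) • g).coeff 0 =
      ((monomial 1 E : B[X]) • g).coeff 0 - ((monomial 0 s : B[X]) • g).coeff 0 := rfl
  rw [h2, PolynomialModule.monomial_smul_apply, PolynomialModule.monomial_smul_apply]
  simp

/-- functoriality of `PolynomialModule` -/
noncomputable def pmap {M N : Type} [AddCommGroup M] [Module B M] [AddCommGroup N] [Module B N]
    (i : M →ₗ[B] N) : PolynomialModule B M →ₗ[B[X]] PolynomialModule B N where
  toFun := PolynomialModule.map B i
  map_add' := map_add _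
  map_smul' p q := by
    have h := PolynomialModule.map_smul B i p q
    simpa using h

theorem pmap_single {M N : Type} [AddCommGroup M] [Module B M] [AddCommGroup N] [Module B N]
    (i : M →ₗ[B] N) (n : ℕ) (m : M) :
    pmap i (PolynomialModule.single B n m) = PolynomialModule.single B n (i m) :=
  PolynomialModule.map_single B i n m

theorem pmap_coeff {M N : Type} [AddCommGroup M] [Module B M] [AddCommGroup N] [Module B N]
    (i : M →ₗ[B] N) (g : PolynomialModule B M) (n : ℕ) : (pmap i g).coeff n = i (g.coeff n) := by
  induction g using PolynomialModule.induction_linear with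
  | zero => simp
  | add p q hp hq => simp [hp, hq]
  | single k m =>
    rw [pmap_single]
    simp only [PolynomialModule.coeff_single, Finsupp.single_apply]
    split_ifs <;> simp

/-- the `B[X]`-linear map from `M[X]` given by a `B`-linear map to a `B[X]`-module -/
noncomputable def plift {M Q : Type} [AddCommGroup M] [Module B M] [AddCommGroup Q] [Module B Q]
    [Module B[X] Q] [IsScalarTower B B[X] Q] (φ : M →ₗ[B] Q) :
    PolynomialModule B M →ₗ[B[X]] Q where
  toFun g := g.coeff.sum fun i m => (X ^ i : B[X]) • φ m
  map_add' g h := by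
    rw [PolynomialModule.coeff_add]
    exact Finsupp.sum_add_index' (h := fun i m => (X ^ i : B[X]) • φ m) (fun _ => by simp) (fun _ _ _ => by simp [smul_add])
  map_smul' p g := by
    induction p using Polynomial.induction_on' with
    | add p q hp hq =>
      rw [add_smul, PolynomialModule.coeff_add, Finsupp.sum_add_index' (fun _ => by simp)
        (fun _ _ _ => by simp [smul_add]), hp, hq, RingHom.id_apply, RingHom.id_apply,
        RingHom.id_apply, add_smul]
    | monomial n b =>
      induction g using PolynomialModule.induction_linear with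
      | zero => simp
      | add g h hg hh =>
        rw [smul_add, PolynomialModule.coeff_add, PolynomialModule.coeff_add,
          Finsupp.sum_add_index' (fun _ => by simp) (fun _ _ _ => by simp [smul_add]),
          Finsupp.sum_add_index' (fun _ => by simp) (fun _ _ _ => by simp [smul_add]), hg, hh,
          smul_add]
      | single k m =>
        rw [PolynomialModule.monomial_smul_single, PolynomialModule.coeff_single,
          PolynomialModule.coeff_single, Finsupp.sum_single_index (by simp),
          Finsupp.sum_single_index (by simp), map_smul, RingHom.id_apply, smul_smul,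
          ← C_mul_X_pow_eq_monomial, mul_assoc, ← pow_add, mul_smul, ← algebraMap_smul B[X] b (φ m),
          smul_smul, smul_smul]
        congr 1
        rw [Polynomial.algebraMap_eq]
        ring

theorem plift_single {M Q : Type} [AddCommGroup M] [Module B M] [AddCommGroup Q] [Module B Q]
    [Module B[X] Q] [IsScalarTower B B[X] Q] (φ : M →ₗ[B] Q) (n : ℕ) (m : M) :
    plift φ (PolynomialModule.single B n m) = (X ^ n : B[X]) • φ m := by
  change (PolynomialModule.single B n m).coeff.sum (fun i m => (X ^ i : B[X]) • φ m) = _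
  rw [PolynomialModule.coeff_single, Finsupp.sum_single_index (by simp)]

end pm

end Pool.Agent.Helper72.FX
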