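import Pool.Agent.Helper72.FX.NpY

/-!
# Project FX: `Y × ℂ¹⁴` as a hypersurface in `ℂ²⁸`
-/

set_option autoImplicit false

namespace Pool.Agent.Helper72.FX

open Pool.Agent.Helper72.KRF

noncomputable section

/-- the equation of `Y × ℂ¹⁴` in `ℂ²⁸` -/
def P28 : MvPolynomial (Fin 28) ℂ := MvPolynomial.rename (fun i => ee (Sum.inl i)) (UVP FP)

/-- the homomorphism from `AX` given by a point of `Y × ℂ¹⁴` with values in an algebra -/
def ptB {B : Type} [CommRing B] [Algebra ℂ B] (y : (Fin 2 ⊕ Fin 12) ⊕ (Fin 2 ⊕ Fin 12) → B)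
    (hy : MvPolynomial.aeval (fun i => y (Sum.inl i)) (UVP FP) = 0) : AX →ₐ[ℂ] B :=
  MvPolynomial.aevalTower (Ideal.Quotient.liftₐ _ (MvPolynomial.aeval fun i => y (Sum.inl i)) (by
    intro a ha
    obtain ⟨q, rfl⟩ := Ideal.mem_span_singleton'.1 ha
    rw [map_mul, hy, mul_zero])) (fun i => y (Sum.inr i))

theorem pix_P28 : pix P28 = 0 := by
  rw [P28, pix, MvPolynomial.aeval_rename]
  have h1 : (fun i => vx (ee.symm i)) ∘ (fun i => ee (Sum.inl i)) =
      fun i => MvPolynomial.C (σ := Fin 2 ⊕ Fin 12) (gen (UVP FP) i) := by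
    funext i
    simp [vx]
  rw [h1]
  have := MvPolynomial.comp_aeval_apply (R := ℂ) (f := gen (UVP FP))
    ((Algebra.ofId (QR (UVP FP)) AX).restrictScalars ℂ) (UVP FP)
  rw [aeval_F, map_zero] at this
  exact this.symm

theorem ptB_l {B : Type} [CommRing B] [Algebra ℂ B] (y : (Fin 2 ⊕ Fin 12) ⊕ (Fin 2 ⊕ Fin 12) → B)
    (hy : MvPolynomial.aeval (fun i => y (Sum.inl i)) (UVP FP) = 0) (j : Fin 2 ⊕ Fin 12) :
    ptB y hy (MvPolynomial.C (gen (UVP FP) j)) = y (Sum.inl j) := by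
  rw [ptB, MvPolynomial.aevalTower_C]
  change MvPolynomial.aeval _ (MvPolynomial.X j) = _
  rw [MvPolynomial.aeval_X]

theorem ptB_r {B : Type} [CommRing B] [Algebra ℂ B] (y : (Fin 2 ⊕ Fin 12) ⊕ (Fin 2 ⊕ Fin 12) → B)
    (hy : MvPolynomial.aeval (fun i => y (Sum.inl i)) (UVP FP) = 0) (j : Fin 2 ⊕ Fin 12) :
    ptB y hy (MvPolynomial.X j) = y (Sum.inr j) := by
  rw [ptB, MvPolynomial.aevalTower_X]

theorem ptB_pix {B : Type} [CommRing B] [Algebra ℂ B] (z : Fin 28 → B)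
    (hz : MvPolynomial.aeval (fun i => z (ee (Sum.inl i))) (UVP FP) = 0) (p : MvPolynomial (Fin 28) ℂ) :
    ptB (fun i => z (ee i)) hz (pix p) = MvPolynomial.aeval z p := by
  have h1 : (ptB (fun i => z (ee i)) hz).comp pix = MvPolynomial.aeval z := by
    refine MvPolynomial.algHom_ext fun i => ?_
    rw [AlgHom.comp_apply, pix, MvPolynomial.aeval_X, MvPolynomial.aeval_X]
    obtain ⟨j, rfl⟩ := ee.surjective i
    rw [Equiv.symm_apply_apply]
    rcases j with j | j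
    · exact ptB_l (fun i => z (ee i)) hz j
    · exact ptB_r (fun i => z (ee i)) hz j
  have h2 := congrArg (fun f => f p) h1
  simp only [AlgHom.comp_apply] at h2
  exact h2

theorem ker_le {B : Type} [CommRing B] [Algebra ℂ B] (f : MvPolynomial (Fin 28) ℂ →ₐ[ℂ] B) (hf : f P28 = 0)
    (p : MvPolynomial (Fin 28) ℂ) (hp : pix p = 0) : f p = 0 := by
  have h0 : f = MvPolynomial.aeval (fun i => f (MvPolynomial.X i)) := MvPolynomial.algHom_ext fun i => by
    rw [MvPolynomial.aeval_X]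
  have hz : MvPolynomial.aeval (fun i => f (MvPolynomial.X (ee (Sum.inl i)))) (UVP FP) = 0 := by
    rw [h0, P28, MvPolynomial.aeval_rename] at hf
    exact hf
  have h := ptB_pix (fun i => f (MvPolynomial.X i)) hz p
  rw [hp, map_zero, ← h0] at h
  exact h.symm

theorem ker_pix : RingHom.ker pix = Ideal.span {P28} := by
  apply le_antisymm
  · intro p hp
    have h := ker_le (Ideal.Quotient.mkₐ ℂ (Ideal.span {P28}))
      (Ideal.Quotient.eq_zero_iff_mem.2 (Ideal.mem_span_singleton_self _)) p (RingHom.mem_ker.1 hp)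
    exact Ideal.Quotient.eq_zero_iff_mem.1 h
  · rw [Ideal.span_singleton_le_iff_mem, RingHom.mem_ker]
    exact pix_P28

/-- the isomorphism of a presentation -/
def eker {B : Type} [CommRing B] [Algebra ℂ B] {n : ℕ} (f : MvPolynomial (Fin n) ℂ →ₐ[ℂ] B)
    (hf : Function.Surjective f) (P : MvPolynomial (Fin n) ℂ) (hk : RingHom.ker f = Ideal.span {P}) :
    (MvPolynomial (Fin n) ℂ ⧸ Ideal.span {P}) ≃ₐ[ℂ] B :=
  (Ideal.quotientEquivAlgOfEq ℂ hk.symm).trans (Ideal.quotientKerAlgEquivOfSurjective hf)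

/-- what we need to know about `B` passes to the presentation -/
theorem pres {B : Type} [CommRing B] [Algebra ℂ B] {n : ℕ} (f : MvPolynomial (Fin n) ℂ →ₐ[ℂ] B)
    (hf : Function.Surjective f) (P : MvPolynomial (Fin n) ℂ) (hk : RingHom.ker f = Ideal.span {P})
    (h1 : Algebra.Smooth ℂ B) (h2 : Flexible B) (h3 : NP B) :
    Algebra.Smooth ℂ (MvPolynomial (Fin n) ℂ ⧸ Ideal.span {P}) ∧
      Flexible (MvPolynomial (Fin n) ℂ ⧸ Ideal.span {P}) ∧
      (∀ j k : ℕ, IsEmpty (MvPolynomial (Fin j) (MvPolynomial (Fin n) ℂ ⧸ Ideal.span {P}) ≃+*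
        MvPolynomial (Fin k) ℂ)) := by
  have e := eker f hf P hk
  refine ⟨Algebra.Smooth.of_equiv e.symm, Flexible.of_equiv e h2, fun j k => ⟨fun e' => ?_⟩⟩
  have hI := Pool.Agent.Helper29.FX.hNPI Pool.Agent.Helper36.FX.hRES Pool.Agent.Helper53.FX.hNPX
    Pool.Agent.Helper15.FX.hEXT Pool.Agent.Helper79.FX.hDQ Pool.Agent.Helper73.FX.hSNK
    Pool.Agent.Helper85.FX.hPMX
  have h4 : NP (MvPolynomial (Fin n) ℂ ⧸ Ideal.span {P}) := hI.1 _ _ e.symm.toRingEquiv h3
  have h5 : NP (MvPolynomial (Fin j) (MvPolynomial (Fin n) ℂ ⧸ Ideal.span {P})) := hI.2 _ _ h4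
  have h6 : NP (MvPolynomial (Fin k) ℂ) := hI.1 _ _ e' h5
  exact Pool.Agent.Helper10.FX.hNPZ _ ((Pool.Agent.Helper38.FX.hZP Pool.Agent.Helper81.FX.hHOM
    Pool.Agent.Helper85.FX.hPMX Pool.Agent.Helper70.FX.hZT).1 k) h6

theorem np_AX : NP AX := by
  have hI := Pool.Agent.Helper29.FX.hNPI Pool.Agent.Helper36.FX.hRES Pool.Agent.Helper53.FX.hNPX
    Pool.Agent.Helper15.FX.hEXT Pool.Agent.Helper79.FX.hDQ Pool.Agent.Helper73.FX.hSNK
    Pool.Agent.Helper85.FX.hPMX
  have : IsNoetherianRing (QR (UVP FP)) := by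
    unfold QR; infer_instance
  exact hI.2 _ _ npY

theorem smooth_AX : Algebra.Smooth ℂ AX := by
  have : Algebra.Smooth ℂ (QR (UVP FP)) := finA 12 FP finZ
  have h2 : Algebra.Smooth (QR (UVP FP)) AX :=
    { formallySmooth := inferInstance, finitePresentation := inferInstance }
  exact Algebra.Smooth.comp ℂ (QR (UVP FP)) AX

theorem own :
    ∃ P : MvPolynomial (Fin 28) ℂ,
      Algebra.Smooth ℂ (MvPolynomial (Fin 28) ℂ ⧸ Ideal.span {P}) ∧
      Flexible (MvPolynomial (Fin 28) ℂ ⧸ Ideal.span {P}) ∧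
      (∀ j k : ℕ, IsEmpty (MvPolynomial (Fin j) (MvPolynomial (Fin 28) ℂ ⧸ Ideal.span {P}) ≃+*
        MvPolynomial (Fin k) ℂ)) ∧
      ∃ g : (Fin 27 → ℂ) → (Fin 28 → ℂ),
        ContDiff ℝ (⊤ : ℕ∞) g ∧
        (∀ x, Function.Injective (fderiv ℝ g x)) ∧
        Topology.IsEmbedding g ∧
        Set.range g = {x : Fin 28 → ℂ | MvPolynomial.eval x P = 0} := by
  have hZ := finZ
  obtain ⟨c1, c2, c3⟩ := pres pix pix_surj P28 ker_pix smooth_AX (finF 12 FP hZ FP_zero) np_AX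
  refine ⟨P28, c1, c2, c3, ?_⟩
  · obtain ⟨g, hg1, hg2, hg3, hg4⟩ := finS 12 FP (by norm_num) hZ FP_zero finT
    let L : ((Fin 2 ⊕ Fin 12) ⊕ (Fin 2 ⊕ Fin 12) → ℂ) ≃L[ℝ] (Fin 28 → ℂ) :=
      ContinuousLinearEquiv.piCongrLeft ℝ (fun _ => ℂ) ee
    have hL : ∀ y i, L y i = y (ee.symm i) := by
      intro y i
      obtain ⟨j, rfl⟩ := ee.surjective i
      rw [Equiv.symm_apply_apply]
      exact Equiv.piCongrLeft_apply_apply (P := fun _ => ℂ) ee y j
    have hP : ∀ x : Fin 28 → ℂ, MvPolynomial.eval x P28 = 0 ↔ (fun i => x (ee (Sum.inl i))) ∈ YY FP := by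
      intro x
      rw [P28, MvPolynomial.eval_rename, UVP, map_sub, map_mul, MvPolynomial.eval_X, MvPolynomial.eval_X,
        MvPolynomial.eval_rename, sub_eq_zero]
      rfl
    refine ⟨fun x => L (g x), L.contDiff.comp hg1, fun x => ?_, ?_, ?_⟩
    · have hd : DifferentiableAt ℝ g x := hg1.differentiable (by simp) x
      have h1 : fderiv ℝ (fun x => L (g x)) x = L.toContinuousLinearMap.comp (fderiv ℝ g x) :=
        (L.toContinuousLinearMap.hasFDerivAt.comp x hd.hasFDerivAt).fderiv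
      rw [h1]
      exact L.injective.comp (hg2 x)
    · exact L.toHomeomorph.isEmbedding.comp hg3
    · ext x
      rw [Set.mem_ofPred_eq, hP]
      constructor
      · rintro ⟨y, rfl⟩
        have h1 : g y ∈ Set.range g := ⟨y, rfl⟩
        rw [hg4] at h1
        have h2 : (fun i => L (g y) (ee (Sum.inl i))) = fun i => g y (Sum.inl i) := by
          funext i
          rw [hL, Equiv.symm_apply_apply]
        exact h2 ▸ h1
      · intro hx
        have h1 : (fun j => x (ee j)) ∈ Set.range g := by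
          rw [hg4]
          exact hx
        obtain ⟨y, hy⟩ := h1
        refine ⟨y, ?_⟩
        funext i
        change L (g y) i = x i
        rw [hL, hy]
        exact congrArg x (ee.apply_symm_apply i)

end

end Pool.Agent.Helper72.FX
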