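import Pool.Agent.Helper72.FX.KDefs

/-!
# Project FX, chapter K, part 1: generic statements on additive functions (complete proofs in the docstrings)

Read `KDefs.lean` first (`AF`, `kil`, `kpw`, `Gd`, `ZZ`, `NP`, `Ck`, `Kn`, `pmap`, `plift` and the proved lemmas
`AF.equiv`, `AF.quot`, `AF.of_subsingleton`, `AF.mono`, `pm_smul_coeff_succ`, `pm_smul_coeff_zero`, `pmap_coeff`).
-/

set_option autoImplicit false

namespace Pool.Agent.Helper72.FX

open Polynomial

/-- **SNK** (snake lemma for additive functions; strong, 120 lines).  Commutative diagram with exact rows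
`0 → M1 → M2 → M3 → 0`, `0 → N1 → N2 → N3 → 0` and columns `g1, g2, g3`.  PROOF.  Snake lemma
(`Mathlib.Algebra.Module.SnakeLemma`: `SnakeLemma.δ'`, `exact_δ'_right`, `exact_δ'_left`, or by hand): with `K_l = ker g_l`,
`C_l = N_l / im g_l` the sequence `0 → K1 → K2 → K3 -δ-> C1 → C2 → C3 → 0` is exact.  Cut it in short exact sequences:
`χ K2 = χ K1 + χ (im (K2 → K3))`, `χ K3 = χ (ker δ) + χ (im δ)` with `ker δ = im (K2 → K3)`,
`χ C1 = χ (im δ) + χ (C1 / im δ)`, `χ C2 = χ (im (C1 → C2)) + χ C3`, `C1 / im δ = im (C1 → C2)`.  All modules which occur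
are submodules or quotients of `K2, K3, C1, C2` (so finite and in the class `P`).  Subtract. -/
def StSNK : Prop := ∀ (A : Type) [CommRing A] [IsNoetherianRing A] (P : MC A), Gd P →
  ∀ (Λ : Type) [AddCommGroup Λ] (χ : AF A P Λ) (M1 M2 M3 N1 N2 N3 : Type)
    [AddCommGroup M1] [Module A M1] [AddCommGroup M2] [Module A M2] [AddCommGroup M3] [Module A M3]
    [AddCommGroup N1] [Module A N1] [AddCommGroup N2] [Module A N2] [AddCommGroup N3] [Module A N3]
    (i : M1 →ₗ[A] M2) (p : M2 →ₗ[A] M3) (j : N1 →ₗ[A] N2) (q : N2 →ₗ[A] N3)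
    (g1 : M1 →ₗ[A] N1) (g2 : M2 →ₗ[A] N2) (g3 : M3 →ₗ[A] N3),
    Function.Injective i → Function.Exact i p → Function.Surjective p →
    Function.Injective j → Function.Exact j q → Function.Surjective q →
    g2 ∘ₗ i = j ∘ₗ g1 → g3 ∘ₗ p = q ∘ₗ g2 →
    Module.Finite A (LinearMap.ker g2) → P (LinearMap.ker g2) →
    Module.Finite A (LinearMap.ker g3) → P (LinearMap.ker g3) →
    Module.Finite A (N1 ⧸ LinearMap.range g1) → P (N1 ⧸ LinearMap.range g1) →
    Module.Finite A (N2 ⧸ LinearMap.range g2) → P (N2 ⧸ LinearMap.range g2) →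
    χ.f (N2 ⧸ LinearMap.range g2) - χ.f (LinearMap.ker g2) =
      (χ.f (N1 ⧸ LinearMap.range g1) - χ.f (LinearMap.ker g1)) +
      (χ.f (N3 ⧸ LinearMap.range g3) - χ.f (LinearMap.ker g3))

/-- **DQ** (derived quotient by an element; small, 60 lines).  PROOF.  Put `ψ.f M = χ.f (M / x M) - χ.f (ker x)`.
Additivity: `SNK` with `P = kil (I ⊔ (x))`, `N_l = M_l` and `g_l` = multiplication by `x`: the kernels and the cokernels are
killed by `I` (sub and quotient of a module killed by `I`) and by `x`, and finite. -/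
def StDQ : Prop := StSNK → ∀ (A : Type) [CommRing A] [IsNoetherianRing A] (I : Ideal A) (x : A)
  (Λ : Type) [AddCommGroup Λ] (χ : AF A (kil (I ⊔ Ideal.span {x})) Λ),
  ∃ ψ : AF A (kil I) Λ, ∀ (M : Type) [AddCommGroup M] [Module A M],
    ψ.f M = χ.f (Ck x M) - χ.f (Kn x M)

/-- **RES** (restriction of scalars; 70 lines).  PROOF.  `ψ.f M := @AF.f … χ M _ (Module.compHom M φ)`.  Exactness: `i`, `p`
are `A'`-linear for the restricted structures (`{ toFun := i, map_add', map_smul' := fun a m => i.map_smul (φ a) m }`);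
`N` is finite over `A'`: if `n_1, …, n_r` generate `N` over `A` then they generate it over `A'`, because `a • n = φ a' • n`
when `a - φ a' ∈ I` and `I` kills `N`; `N` is killed by `I'` as `I'.map φ ≤ I`.  Last clause: two module structures of `A'` on
`M` with the same scalar multiplication are equal (`Module.ext'` or `congr` / `Subsingleton`-style: show that the instance
`Module.compHom M φ` equals the given one by `Module.ext`). -/
def StRES : Prop := ∀ (A A' : Type) [CommRing A] [CommRing A'] (φ : A' →+* A) (I : Ideal A)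
  (I' : Ideal A'), I'.map φ ≤ I → (∀ a : A, ∃ a' : A', a - φ a' ∈ I) →
  ∀ (Λ : Type) [AddCommGroup Λ] (χ : AF A' (kil I') Λ), ∃ ψ : AF A (kil I) Λ,
    ∀ (M : Type) [AddCommGroup M] [Module A M] [Module A' M],
      (∀ (a : A') (m : M), φ a • m = a • m) → ψ.f M = χ.f M

/-- **EXT** (extension to the polynomial ring; 80 lines).  PROOF.  `RES` for `φ = C : A → A[X]`, the ideal
`I.map C ⊔ (X)` (every polynomial is `C (constant term)` modulo `X`) gives `ψ0 : AF A[X] (kil (I.map C ⊔ span {X})) Λ`; `DQ`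
with `x = X` gives `ψ`.  Value: for `M` finite over `A`, killed by `I`, the module `PM = PolynomialModule A M`: `X` acts as the
shift (`PolynomialModule.monomial_smul_apply`), so `ker X = 0` and `PM / X PM ≅ M` by the coefficient `0`.  `ψ0.f (PM / X PM)`:
give `M` the `A[X]`-structure in which `X` acts by `0` (for instance transport from `PM / X PM`; it is easier to evaluate
`ψ0.f (PM / X)` by `RES` as `χ.f (PM / X)` with the `A`-module structure of `PM / X` and then use `AF.equiv` for
`PM / X ≃ₗ[A] M`). -/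
def StEXT : Prop := StDQ → StSNK → StRES → ∀ (A : Type) [CommRing A] [IsNoetherianRing A] (I : Ideal A)
  (Λ : Type) [AddCommGroup Λ] (χ : AF A (kil I) Λ), ∃ ψ : AF A[X] (kil (I.map C)) Λ,
    ∀ (M : Type) [AddCommGroup M] [Module A M], Module.Finite A M → kil I M →
      ψ.f (PolynomialModule A M) = χ.f M

/-- **PMX** (exactness and finiteness of `M ↦ M[X]`; 80 lines): `pmap` preserves injective / surjective / exact, and
`PolynomialModule A M` is finite over `A[X]` if `M` is finite over `A`; if `I` kills `M` then `I.map C` kills `M[X]`; if moreover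
`E ^ k` kills `M` then `(C E) ^ k` kills `M[X]`.  PROOF.  Coefficientwise (`pmap_coeff`); a preimage is built with
`Finsupp.mapRange` of a set-theoretic section `σ` with `σ 0 = 0` (or by induction `PolynomialModule.induction_linear`).
Generators of `M[X]`: `single 0 m_j` (`monomial n a • single 0 m = single n (a • m)`). -/
def StPMX : Prop := ∀ (A : Type) [CommRing A] (M N Q : Type) [AddCommGroup M] [Module A M]
  [AddCommGroup N] [Module A N] [AddCommGroup Q] [Module A Q] (i : M →ₗ[A] N) (p : N →ₗ[A] Q),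
  (Function.Injective i → Function.Injective (pmap i)) ∧
  (Function.Surjective i → Function.Surjective (pmap i)) ∧
  (Function.Exact i p → Function.Exact (pmap i) (pmap p)) ∧
  (Module.Finite A M → Module.Finite A[X] (PolynomialModule A M)) ∧
  (∀ I : Ideal A, kil I M → kil (I.map C) (PolynomialModule A M)) ∧
  (∀ (E : A) (k : ℕ), (∀ y : M, E ^ k • y = 0) → ∀ y : PolynomialModule A M, (C E) ^ k • y = 0)

/-- **HOM** (homotopy invariance; strong, 180 lines).  PROOF.  Noetherian induction on `I` (`A` noetherian, `>` is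
well-founded on ideals): assume the statement for all ideals `J > I`.  By
`IsNoetherianRing.induction_on_isQuotientEquivQuotientPrime` for `A[X]` (class of modules killed by `I.map C`; submodules and
quotients stay in the class; treat `motive N := kil (I.map C) N → χ.f N = 0`) it suffices: `N ≃ A[X] / p`, `p` prime,
`I.map C ≤ p`.  Let `q = p.comap C ≥ I`.
(a) `q > I`: the restriction of `χ` to `kil (q.map C)` (`AF.mono`, `kil_mono`) vanishes on `M[X]`, `M` killed by `q`; by the
induction hypothesis `χ.f N = 0`.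
(b) `q = I` (so `I` is prime) and `p = I.map C`: `N ≅ A[X] / I[X] ≅ (A/I)[X]` is `PolynomialModule A (A ⧸ I)`: zero.
(c) `q = I`, `p ≠ I.map C`: among the elements of `p` with leading coefficient not in `I` take `f` of minimal degree `d`, with
leading coefficient `c` (such elements exist: take an element of `p` not in `I[X]` and remove its top coefficients as long as
they are in `I`).  `d ≥ 1` as `q = I`.  For `g ∈ p`: there are `m` and `u` with `C c ^ m * g - u * f` of degree `< d`
(pseudo-division), it lies in `p`, hence in `I[X]` by minimality.  So every element of `p / ((f) + I[X])` is killed by a power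
of `c`; it is a finite module, so by one power.  Exact sequences: `0 → (A/I)[X] -f-> (A/I)[X] → A[X]/((f) + I[X]) → 0` (`A/I` is
a domain, `f ≠ 0` mod `I`) gives `χ (A[X]/((f)+I[X])) = 0`; `0 → p/((f)+I[X]) → A[X]/((f)+I[X]) → A[X]/p → 0`.  The module
`L = p/((f)+I[X])` is killed by `I` and `c^m`: filter by `c^j L`; the quotients `c^j L / c^{j+1} L` are killed by
`J = I + (c) > I`, so `χ = 0` on them by the induction hypothesis for `J`; so `χ L = 0` and `χ (A[X]/p) = 0`. -/
def StHOM : Prop := StPMX → ∀ (A : Type) [CommRing A] [IsNoetherianRing A] (I : Ideal A)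
  (Λ : Type) [AddCommGroup Λ] (χ : AF A[X] (kil (I.map C)) Λ),
  (∀ (M : Type) [AddCommGroup M] [Module A M], Module.Finite A M → kil I M →
    χ.f (PolynomialModule A M) = 0) →
  ∀ (N : Type) [AddCommGroup N] [Module A[X] N], Module.Finite A[X] N → kil (I.map C) N → χ.f N = 0

/-- **ZT** (transport of `ZZ`; 90 lines).  PROOF.  Let `χ : AF A (kil I) Λ` satisfy the hypotheses for `φ x`.  The map
`A' / I.comap φ → A / I` induced by `φ` is an isomorphism of rings (injective by definition of the comap, surjective by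
hypothesis).  An `A'`-module `N'` killed by `I.comap φ` is an `A' / I.comap φ`-module (`Module.IsTorsionBySet.module` or
`Ideal.Quotient` lift: `Module.compHom`), hence an `A / I`-module, hence an `A`-module, killed by `I`, and `φ a' • n = a' • n`.
Let `χ'.f N'` be `χ.f` of this `A`-module when `N'` is killed by `I.comap φ` (and `0` otherwise).  It is additive, vanishes on
the modules killed by `x` and on `A' / I.comap φ` (which becomes `A / I`).  So `χ' = 0`.  For `N` finite over `A` killed by `I`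
let `N'` be `N` with the structure `Module.compHom N φ`; the `A`-structure built from it is the old one (`a • n = φ a' • n` if
`a - φ a' ∈ I`), so `χ.f N = χ'.f N' = 0`. -/
def StZT : Prop := ∀ (A A' : Type) [CommRing A] [CommRing A'] (φ : A' →+* A) (I : Ideal A) (x : A'),
  (∀ a : A, ∃ a' : A', a - φ a' ∈ I) → ZZ A' (I.comap φ) x → ZZ A I (φ x)

/-- **ZP** (polynomial rings have only the trivial additive functions; 80 lines).  PROOF.  (1) `ZZ ℂ ⊥ 1` (a finite module
over a field is `k^n`, `χ (k^n) = n χ(k) = 0` by induction with the exact sequences `0 → k → k^{n+1} → k^n → 0`).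
(2) `ZZ A I 1 → ZZ A[X] (I.map C) 1` for `A` noetherian: given `χ`, `M ↦ χ.f (M[X])` is additive on `kil I` (`PMX`), its value at
`A / I` is `χ.f ((A/I)[X]) = χ.f (A[X] / I.map C) = 0` (`AF.equiv`), modules killed by `1` are zero; so it is zero and `HOM`
applies.  (3) Induction over `n` with `MvPolynomial.finSuccEquiv ℂ n : MvPolynomial (Fin (n+1)) ℂ ≃ (MvPolynomial (Fin n) ℂ)[X]`
(and `isEmptyAlgEquiv` for `n = 0`) and `ZT`.  (4) second clause: `ZT` with `φ = MvPolynomial.rename (Fin.succAbove i) :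
MvPolynomial (Fin n) ℂ → MvPolynomial (Fin (n+1)) ℂ` and `I = (X i)`: every polynomial is a polynomial without `X i` modulo
`X i` (substitute `X i ↦ 0`), and the comap of `(X i)` is `⊥` (substitute `X i ↦ 0`, `X (i.succAbove j) ↦ X j`). -/
def StZP : Prop := StHOM → StPMX → StZT → (∀ n : ℕ, ZZ (MvPolynomial (Fin n) ℂ) ⊥ 1) ∧
  ∀ (n : ℕ) (i : Fin (n + 1)), ZZ (MvPolynomial (Fin (n + 1)) ℂ) (Ideal.span {MvPolynomial.X i}) 1

/-- **TRF** (transfer along a birational map; strong, 180 lines).  PROOF.  Let `χ : AF C (kil IC) Λ` vanish on the modules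
killed by `φ x` and on `C / IC`.  Then it vanishes on the finite modules (killed by `IC`) which are killed by a power of `φ x`
(filter).  For a finite `B`-module `M` killed by `IB` put `T(M) = (C ⧸ IC) ⊗[B] M` (`C ⧸ IC` is a `B`-algebra via `φ`), a finite
`C`-module killed by `IC`, and `χ'(M) = χ.f (T M)`.
(a) `m ∈ M`, `1 ⊗ m = 0` in `T(M)` implies `x ^ k • m = 0` for some `k`: by H1, H2 there is a ring homomorphism
`ψ : C ⧸ IC → Localization.Away (x̄)`, `x̄` the class of `x` in `B ⧸ IB`, `ψ(c) = b / x^k` if `φ x ^ k * c - φ b ∈ IC` (well defined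
by H2, `ψ ∘ φ` = the canonical map); so `T(M) → LocalizedModule (powers x) M`, `c ⊗ m ↦ ψ(c) • m` is defined and
`1 ⊗ m ↦ m / 1`.
(b) every element `t = ∑ c_i ⊗ m_i` of `T(M)` satisfies `x^k t = 1 ⊗ m` for some `k`, `m` (H1).
(c) `0 → M' → M → M'' → 0` exact gives `T M' → T M → T M'' → 0` exact (`lTensor` right exact) and the kernel of the first map is
killed elementwise by powers of `x` (b, a), hence by one power (finite); so `χ' M = χ' M' + χ' M''`.
(d) `χ'` vanishes if `x` kills `M`, and `χ'(B ⧸ IB) = χ.f (C ⧸ IC) = 0`, because `(C ⧸ IC) ⊗ (B ⧸ IB) ≅ C ⧸ (IC + IB.map φ) = C ⧸ IC`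
by H0.  So `χ' = 0` by `ZZ B IB x`.
(e) `Q` finite over `C`, killed by `IC`, `q_1..q_r` generators, `M` = the `B`-submodule generated by them (finite, killed by `IB`
by H0).  `T(M) → Q`, `c ⊗ m ↦ c m`, is surjective and its kernel is killed by a power of `x` (b: `x^k t = 1 ⊗ m ↦ m = 0` in
`Q`).  So `χ.f Q = χ' M - 0 = 0`. -/
def StTRF : Prop := ∀ (B C : Type) [CommRing B] [CommRing C] [IsNoetherianRing B]
  [IsNoetherianRing C] (φ : B →+* C) (IB : Ideal B) (IC : Ideal C) (x : B),
  IB.map φ ≤ IC → (∀ c : C, ∃ (k : ℕ) (b : B), φ x ^ k * c - φ b ∈ IC) →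
  (∀ b : B, φ b ∈ IC → ∃ k : ℕ, x ^ k * b ∈ IB) → ZZ B IB x → ZZ C IC (φ x)

/-- **DEV** (devissage: extension to the modules killed by a power of `E`; 150 lines).  PROOF.  For `k` define
`τ_k(T)` by `τ_0 = 0`, `τ_{k+1}(T) = χ(T/ET) + τ_k(ET)` (`E T` = image of the multiplication).  CLAIM k: on the finite modules
killed by `I` and `E^k`: (i) `τ_k` is additive, (ii) `τ_{k+1} = τ_k` there, (iii) `τ_k = χ` on the modules killed by `E` (`k ≥ 1`).
Induction: `0 → T' → T → T'' → 0` exact, `E^{k+1} T = 0`.  `ET → ET''` is surjective with kernel `T1 = ET ∩ T' ⊇ ET'`,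
`E^k (ET) = 0`: `τ_k(ET) = τ_k(T1) + τ_k(ET'')`.  `0 → T'/T1 → T/ET → T''/ET'' → 0` is exact and killed by `E`.  So
`τ_{k+1}(T) = χ(T'/T1) + χ(T''/ET'') + τ_k(T1) + τ_k(ET'') = τ_{k+1}(T'') + [χ(T'/T1) + τ_k(T1)]`, and
`χ(T'/T1) + τ_k(T1) = χ(T'/T1) + τ_k(ET') + τ_k(T1/ET') = χ(T'/T1) + χ(T1/ET') + τ_k(ET') = χ(T'/ET') + τ_k(ET') = τ_{k+1}(T')`
(`T1/ET'` is killed by `E`, (iii); if `k = 0` then `T1 = ET' = 0`).  (ii) by induction from the definition.
Put `τ(T) = τ_k(T)` for the least `k` with `E^k T = 0` (`0` if there is none), which is `τ_l(T)` for every `l ≥ k`. -/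
def StDEV : Prop := ∀ (A : Type) [CommRing A] [IsNoetherianRing A] (I : Ideal A) (E : A)
  (Λ : Type) [AddCommGroup Λ] (χ : AF A (kil (I ⊔ Ideal.span {E})) Λ),
  ∃ τ : AF A (kpw I E) Λ, ∀ (M : Type) [AddCommGroup M] [Module A M], Module.Finite A M →
    kil (I ⊔ Ideal.span {E}) M → τ.f M = χ.f M

/-! ### the pencil lemma -/

section pencil

variable {B : Type} [CommRing B]

/-- the element `E X - s` -/
noncomputable def pel (E s : B) : B[X] := C E * X - C s

/-- the ideal of the pencil over `B / I` -/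
noncomputable def pid (I : Ideal B) (E s : B) : Ideal B[X] := I.map C ⊔ Ideal.span {pel E s}

/-- the map `M[X] → Q` of a `B`-submodule `M` of a `B[X]`-module `Q` -/
noncomputable def Phi {Q : Type} [AddCommGroup Q] [Module B Q] [Module B[X] Q] [IsScalarTower B B[X] Q]
    (M : Submodule B Q) : PolynomialModule B M →ₗ[B[X]] Q := plift M.subtype

/-- good lattice: finitely generated over `B` and generating `Q` over `B[X]` -/
def GdL {Q : Type} [AddCommGroup Q] [Module B Q] [Module B[X] Q] [IsScalarTower B B[X] Q]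
    (M : Submodule B Q) : Prop := M.FG ∧ Function.Surjective (Phi M)

/-- `ker (M[X] → Q)` modulo `(E X - s) M[X]` -/
abbrev KM (E s : B) {Q : Type} [AddCommGroup Q] [Module B Q] [Module B[X] Q] [IsScalarTower B B[X] Q]
    (M : Submodule B Q) : Type :=
  ↥(LinearMap.ker (Phi M)) ⧸ (LinearMap.range
    (LinearMap.lsmul B[X] (PolynomialModule B M) (pel E s))).comap (LinearMap.ker (Phi M)).subtype

/-- the value computed with the lattice `M` -/
noncomputable def VL {I : Ideal B} {E s : B} {Λ : Type} [AddCommGroup Λ] (χB : AF B (kil I) Λ)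
    (τ : AF B[X] (kpw (pid I E s) (C E)) Λ) {Q : Type} [AddCommGroup Q] [Module B Q] [Module B[X] Q]
    [IsScalarTower B B[X] Q] (M : Submodule B Q) : Λ :=
  χB.f M - τ.f (KM E s M) + τ.f (Kn (pel E s) (PolynomialModule B M))

/-- compatibility of `χB` and `τ` on the modules killed by a power of `E` -/
def Cmp {I : Ideal B} {E s : B} {Λ : Type} [AddCommGroup Λ] (χB : AF B (kil I) Λ)
    (τ : AF B[X] (kpw (pid I E s) (C E)) Λ) : Prop :=
  ∀ (N : Type) [AddCommGroup N] [Module B N], Module.Finite B N → kpw I E N →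
    χB.f N = τ.f (Ck (pel E s) (PolynomialModule B N)) - τ.f (Kn (pel E s) (PolynomialModule B N))

end pencil

/-- **PTO** (torsion facts; 120 lines).  PROOF.  Write `π = E X - s`.  (1) `g ∈ M[X]`, `π g = 0`, `g` of degree `≤ d`: the
coefficients satisfy `E g_n = s g_{n+1}` (`pm_smul_coeff_succ`), so `E g_d = 0`, `E^{k+1} g_{d-k} = E^k s g_{d-k+1} = 0`, so
`E^{d+1} g = 0`; `Kn π (M[X])` is a submodule of a finite module over a noetherian ring, so one power works; it is killed by
`π` and by `I.map C`.  (2) `M[X] / π` is killed by `π`, `I.map C`; if `E^k M = 0` also by `(C E)^k`.  (3) `Q` a `B[X]`-module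
killed by `pid I E s`, `M ⊆ Q` good: an element of `ker Φ` is `g = ∑_{i ≤ d} g_i X^i` with `∑ X^i g_i = 0` in `Q`.  In `Q`
`E^i X^i q = s^i q`.  Put `m = ∑ E^{d-i} s^i g_i ∈ M`; in `Q` it equals `E^d ∑ X^i g_i = 0`, so `m = 0`.  In `M[X]` modulo
`π`: `E^d g = ∑ E^{d-i} (E^i X^i) g_i ≡ ∑ E^{d-i} s^i g_i = single 0 m = 0` (`E^i X^i - s^i` is a multiple of `π`,
`sub_dvd_pow_sub_pow`).  So `E^d g ∈ π M[X]`; `KM` is finite, so one power works.  Killed by `I.map C` (`kil I M` because
`C a • q = a • q`) and by `π`: `π g ∈ π M[X]`. -/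
def StPTO : Prop := StPMX → ∀ (B : Type) [CommRing B] [IsNoetherianRing B] (I : Ideal B) (E s : B),
  (∀ (M : Type) [AddCommGroup M] [Module B M], Module.Finite B M → kil I M →
    Module.Finite B[X] (Kn (pel E s) (PolynomialModule B M)) ∧
    kpw (pid I E s) (C E) (Kn (pel E s) (PolynomialModule B M))) ∧
  (∀ (M : Type) [AddCommGroup M] [Module B M], Module.Finite B M → kpw I E M →
    Module.Finite B[X] (Ck (pel E s) (PolynomialModule B M)) ∧
    kpw (pid I E s) (C E) (Ck (pel E s) (PolynomialModule B M))) ∧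
  (∀ (Q : Type) [AddCommGroup Q] [Module B Q] [Module B[X] Q] [IsScalarTower B B[X] Q]
    (M : Submodule B Q), kil (pid I E s) Q → GdL M →
    Module.Finite B[X] (KM E s M) ∧ kpw (pid I E s) (C E) (KM E s M))

/-- **PCM** (compatibility for modules killed by a power of `E`; 80 lines).  PROOF.  Both sides of `Cmp` are additive in `N` on
the finite modules of the class `kpw I E`: the right side by `SNK` applied to `N'[X] → N[X] → N''[X]` (exact by `PMX`) with
`g_l` = multiplication by `π` (kernels and cokernels are in the class `kpw (pid I E s) (C E)` by `PTO`).  They agree when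
`E N = 0` (hypothesis).  Induction on `k` with `E^k N = 0`: `0 → E N → N → N / E N → 0`. -/
def StPCM : Prop := StSNK → StPMX → StPTO → ∀ (B : Type) [CommRing B] [IsNoetherianRing B]
  (I : Ideal B) (E s : B) (Λ : Type) [AddCommGroup Λ] (χB : AF B (kil I) Λ)
  (τ : AF B[X] (kpw (pid I E s) (C E)) Λ),
  (∀ (N : Type) [AddCommGroup N] [Module B N], Module.Finite B N → kil I N →
    (∀ y : N, E • y = 0) →
    χB.f N = τ.f (Ck (pel E s) (PolynomialModule B N)) - τ.f (Kn (pel E s) (PolynomialModule B N))) →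
  Cmp χB τ

/-- **PEA** (independence of the lattice; strong, 150 lines).  PROOF.  `M ≤ M'` good, `N = M'/M`.  `N` is killed by a power of
`E`: `M'` is finite and for `m' ∈ M'`: as `Φ_M` is surjective, `m' = ∑ X^i m_i` (`m_i ∈ M`), so `E^d m' = ∑ E^{d-i} s^i m_i ∈ M`.
Apply `SNK` (class `kpw (pid I E s) (C E)`, function `τ`) to the rows `0 → M[X] → M'[X] → N[X] → 0` (`PMX`) and
`0 → ker Φ_M → ker Φ_{M'} → N[X] → 0` with columns `π` (`π M[X] ⊆ ker Φ_M` as `π` kills `Q`).  The second row is exact: the map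
`ker Φ_{M'} → N[X]` is the restriction of `M'[X] → N[X]`; it is surjective: given `n ∈ N[X]` lift it to `g ∈ M'[X]`, `Φ(g) = Φ(h)`
with `h ∈ M[X]` (`Φ_M` surjective), then `g - h ∈ ker Φ_{M'}`; the kernel consists of the elements of `M[X]` in `ker Φ`.
The cokernels are `KM M`, `KM M'`, `Ck π (N[X])`, the kernels `Kn π (M[X])`, `Kn π (M'[X])`, `Kn π (N[X])` (up to the evident
isomorphisms, `AF.equiv`).  So `τ KM' - τ Kn' = (τ KM - τ Kn) + (τ Ck(N) - τ Kn(N))`, and `Cmp` gives
`τ Ck(N) - τ Kn(N) = χB N = χB M' - χB M`.  So `VL M' = VL M`. -/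
def StPEA : Prop := StSNK → StPMX → StPTO → ∀ (B : Type) [CommRing B] [IsNoetherianRing B]
  (I : Ideal B) (E s : B) (Λ : Type) [AddCommGroup Λ] (χB : AF B (kil I) Λ)
  (τ : AF B[X] (kpw (pid I E s) (C E)) Λ), Cmp χB τ →
  ∀ (Q : Type) [AddCommGroup Q] [Module B Q] [Module B[X] Q] [IsScalarTower B B[X] Q]
    (M M' : Submodule B Q), kil (pid I E s) Q → GdL M → GdL M' → M ≤ M' → VL χB τ M = VL χB τ M'

/-- **PEB** (additivity; strong, 150 lines).  PROOF.  `0 → Q1 → Q → Q2 → 0` (maps `i`, `p`), `M ⊆ Q` good, `M1 = i⁻¹(M)` and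
`M2 = p(M)` good (`hM1` is a hypothesis; `M2` is automatically good).  `0 → M1 → M → M2 → 0` is exact, so
`χB M = χB M1 + χB M2`.  `SNK` for the rows `0 → M1[X] → M[X] → M2[X] → 0` and `0 → ker Φ_1 → ker Φ → ker Φ_2 → 0` (exact by the
3 x 3 lemma: `Φ_1, Φ, Φ_2` are surjective: surjectivity of `ker Φ → ker Φ_2`: lift `g2` to `g ∈ M[X]`, `Φ(g) ∈ i(Q1) = i Φ_1(h)`, replace
`g` by `g - h`) with columns multiplication by `π`, and `PTO` for the class. -/
def StPEB : Prop := StSNK → StPMX → StPTO → ∀ (B : Type) [CommRing B] [IsNoetherianRing B]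
  (I : Ideal B) (E s : B) (Λ : Type) [AddCommGroup Λ] (χB : AF B (kil I) Λ)
  (τ : AF B[X] (kpw (pid I E s) (C E)) Λ)
  (Q1 Q Q2 : Type) [AddCommGroup Q1] [Module B Q1] [Module B[X] Q1] [IsScalarTower B B[X] Q1]
  [AddCommGroup Q] [Module B Q] [Module B[X] Q] [IsScalarTower B B[X] Q]
  [AddCommGroup Q2] [Module B Q2] [Module B[X] Q2] [IsScalarTower B B[X] Q2]
  (i : Q1 →ₗ[B[X]] Q) (p : Q →ₗ[B[X]] Q2) (M : Submodule B Q),
  kil (pid I E s) Q → Function.Injective i → Function.Exact i p → Function.Surjective p →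
  GdL M → GdL (M.comap (i.restrictScalars B)) →
  GdL (M.map (p.restrictScalars B)) ∧
  VL χB τ M = VL χB τ (M.comap (i.restrictScalars B)) + VL χB τ (M.map (p.restrictScalars B))

/-- **PEN** (pencil lemma; 200 lines).  PROOF.  `DEV` for `A = B[X]`, the ideal `pid I E s` and `C E` applied to `χ0` (note
`pid I E s ⊔ span {C E} = I.map C ⊔ span {C E, C s}`) gives `τ`.  For `N` with `E N = 0`: multiplication by `π` on `N[X]` is
multiplication by `- C s`, so the hypothesis `hc` is the hypothesis of `PCM` (same kernel and same range; `AF.equiv`), and `τ = χ0`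
there.  So `Cmp χB τ`.
DEFINITION of `χ.f Q`: for a `B[X]`-module `Q` use the `B`-structure `Module.compHom Q C`; if there is a good `M ⊆ Q` choose one and
put `χ.f Q = VL χB τ M`, else `0`.  It does not depend on the choice: for two good `M, M'` the sum `M ⊔ M'` is good, `PEA`.
Good lattices exist for `Q` finite: `M` = `B`-span of generators.
ADDITIVITY for `0 → Q1 → Q → Q2 → 0`: choose generators `u_j` of `Q1` and `v_j` of `Q`; `M = B`-span of all `i(u_j)`, `v_j` is
good, `i⁻¹(M)` contains the `u_j` and is finitely generated (`B` noetherian), so good; `PEB`.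
(i) `N` killed by `pid I E s`, `C E N = 0`, finite: `M` good; `VL M = χB M - τ KM + τ Kn = τ Ck(M[X]) - τ KM` by `Cmp`
(`E M = 0`); `0 → KM → M[X]/π → N → 0` is exact (`Φ` surjective), so this is `τ N = χ0 N`.
(ii) `M` finite over `B`, killed by `I`; `Q = M[X]/π` with `M0 ⊆ Q` the image of `M` (constants), `N0 = ker (M → Q)`.  `M0` is good.
`N0` is killed by a power of `E`: `m = π g`, `g` of degree `d`: `m = - s g_0`, `0 = E g_n - s g_{n+1}`, so `E^{d+1} m = 0`.  The map
`M[X]/π → M0[X]/π → Q = M[X]/π` is the identity and the first map is surjective, so both are isomorphisms: `KM M0 = 0`.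
`N0[X] ⊆ π M[X]` (definition of `N0`), so the rows `0 → N0[X] → M[X] → M0[X] → 0` and
`0 → N0[X] → π M[X] → π M0[X] → 0` (ranges of the multiplication by `π`) are exact and the columns `π` have the cokernels
`Ck N0, 0, 0`: `SNK` gives `- τ Kn M = (τ Ck N0 - τ Kn N0) - τ Kn M0`.  So `τ Kn M0 = τ Ck N0 - τ Kn N0 + τ Kn M = χB N0 + τ Kn M`, and
`χ Q = χB M0 - 0 + τ Kn M0 = χB M + τ (Kn M)`; `χ (Kn M) = τ (Kn M)` because `χ = τ` on the torsion modules (both are additive and
agree with `χ0` on the modules killed by `C E`). -/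
def StPEN : Prop := StSNK → StPMX → StDEV → StPTO → StPCM → StPEA → StPEB →
  ∀ (B : Type) [CommRing B] [IsNoetherianRing B] (I : Ideal B) (E s : B) (Λ : Type) [AddCommGroup Λ]
  (χB : AF B (kil I) Λ) (χ0 : AF B[X] (kil (I.map C ⊔ Ideal.span {C E, C s})) Λ),
  (∀ (N : Type) [AddCommGroup N] [Module B N], Module.Finite B N → kil I N →
    (∀ y : N, E • y = 0) →
    χB.f N = χ0.f (Ck (C s : B[X]) (PolynomialModule B N)) -
      χ0.f (Kn (C s : B[X]) (PolynomialModule B N))) →
  ∃ χ : AF B[X] (kil (pid I E s)) Λ,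
    (∀ (N : Type) [AddCommGroup N] [Module B[X] N], Module.Finite B[X] N → kil (pid I E s) N →
      (∀ y : N, (C E : B[X]) • y = 0) → χ.f N = χ0.f N) ∧
    (∀ (M : Type) [AddCommGroup M] [Module B M], Module.Finite B M → kil I M →
      χ.f (Ck (pel E s) (PolynomialModule B M)) - χ.f (Kn (pel E s) (PolynomialModule B M)) = χB.f M)

/-- **NPX** (`NP` passes to the polynomial ring; 50 lines).  PROOF.  `EXT` with `I = ⊥` (`Ideal.map_bot`): the value at
`A[X] ≅ A[X]`-module `PolynomialModule A A` (`PolynomialModule.equivPolynomialSelf`) is `χ.f A = 0`, the value at `N[X]` is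
`χ.f N ≠ 0`. -/
def StNPX : Prop := StEXT → StDQ → StSNK → StRES → StPMX → ∀ (A : Type) [CommRing A] [IsNoetherianRing A],
  NP A → NP A[X]

/-- **NPI** (`NP` is invariant under ring isomorphisms and passes to `MvPolynomial`; 60 lines).  PROOF.  (1) `RES` for
`e.symm : A' → A`-type maps (or transport of structure by hand): for `e : A ≃+* A'`, `χ` on `A`, define `χ'` on `A'`-modules by
restriction along `e`; `A'` restricted along `e` is isomorphic to `A`.  The module `N` becomes an `A'`-module by `e.symm`.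
(2) for finite `σ`: `MvPolynomial σ A ≃ MvPolynomial (Fin n) A`, induction on `n` with `finSuccEquiv`, `NPX`. -/
def StNPI : Prop := StRES → StNPX → StEXT → StDQ → StSNK → StPMX →
  (∀ (A A' : Type) [CommRing A] [CommRing A'], (A ≃+* A') → NP A → NP A') ∧
  (∀ (A : Type) [CommRing A] [IsNoetherianRing A] (σ : Type) [Finite σ], NP A → NP (MvPolynomial σ A))

/-- **NPZ** (small, 20 lines).  PROOF.  `ZZ A ⊥ 1` says that every additive function with `χ.f (A ⧸ ⊥) = 0` vanishes (modules
killed by `1` are zero: `AF.of_subsingleton`); `A ⧸ ⊥ ≃ A` (`AF.equiv`). -/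
def StNPZ : Prop := ∀ (A : Type) [CommRing A], ZZ A ⊥ 1 → ¬ NP A

/-- **PRI** (pencils of domains are domains; 80 lines).  PROOF.  `K = FractionRing B`, evaluation `ev : B[X] → K`, `X ↦ s/E`.
Its kernel is a prime ideal and contains `π = E X - s`.  Conversely `f(s/E) = 0` implies `f ∈ (π)`: induction on the degree
`d` of `f`: `d = 0`: `f = 0`.  `d ≥ 1`: multiply by `E^d`: `∑ f_i s^i E^{d-i} = 0` in `B`, so `E ∣ f_d s^d`, `E` is prime and
`E ∤ s`, so `E ∣ f_d`, `f_d = E g`; `f - g X^{d-1} π` has degree `< d` and is in the kernel. -/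
def StPRI : Prop := ∀ (B : Type) [CommRing B] [IsDomain B] (E s : B), Prime E → ¬ E ∣ s →
  (Ideal.span {pel E s}).IsPrime ∧ ∀ b : B, C b ∈ Ideal.span {pel E s} → b = 0

/-- **PR0** (parity function, abstract form; strong, 200 lines).  `k` a domain, `A` a noetherian domain and a torsion free
`k`-algebra such that `A / u` has finite even rank over `k` for every `u ≠ 0`.  PROOF.  `rk N = Module.finrank k N`; it is
additive on exact sequences of `k`-modules of finite rank (`Submodule.finrank_quotient_add_finrank` for domains, via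
`Module.rank`, `rank_quotient_add_rank_of_isDomain`).  A torsion finite `A`-module has finite `k`-rank: it is killed by some
`u ≠ 0` and is a quotient of `(A/u)^n`.
DETERMINANTS: for `Δ ∈ M_r(A)` with `det Δ ≠ 0` let `δ(Δ) = rk (A^r / Δ A^r) mod 2`.  `δ(ΔΔ') = δ(Δ) + δ(Δ')` (exact sequence
`0 → A^r/Δ' → A^r/ΔΔ' → A^r/Δ → 0`), `δ(diag(u, 1, …, 1)) = rk A/u = 0`, `δ(c 1) = 0`.  CLAIM `δ = 0`: over `F = Frac A` the matrix
`Δ` is a product of transvections and a diagonal matrix (`Matrix.diagonal_transvection_induction_of_det_ne_zero`).  Define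
`δ'` on `GL_r(F)` by `δ'(g) = δ(c g)` for `c ∈ A`, `c ≠ 0`, `c g ∈ M_r(A)` (independent of `c`); it is a homomorphism, `0` on diagonal
matrices; on a transvection `1 + (a/b) e_ij`: it is `D⁻¹ (1 + a e_ij) D` with `D = diag(…, b, …)` diagonal (position `i`: `b⁻¹`,
suitably), and `1 + a e_ij` is invertible over `A`, so `δ' = 0`.
DEFINITION: `N` finite over `A`, `r = dim_F (F ⊗ N)`; choose an `A`-linear `f : A^r → N` with `f` injective and `N / im f` torsion
(lift a basis of `F ⊗ N`); `χ(N) = rk (N / im f) mod 2`.  Independence: for `f, f'` there is `c ≠ 0` with `c f' = f Δ`;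
`rk coker (f Δ) = rk coker f + rk coker Δ`, `rk coker (c f') = rk coker f' + r rk (A/c)`.
ADDITIVITY: `0 → N' → N → N'' → 0`, `f', f''`; lift `f''` to `N`: `f = (f', lift f'')`, snake: `0 → coker f' → coker f → coker f'' → 0`.
`χ(A) = 0` (`f = id`); `χ(N) = rk N mod 2` if `N` is torsion (`r = 0`). -/
def StPR0 : Prop := ∀ (k A : Type) [CommRing k] [IsDomain k] [CommRing A] [IsDomain A]
  [IsNoetherianRing A] [Algebra k A] [Module.IsTorsionFree k A],
  (∀ u : A, u ≠ 0 → Module.rank k (A ⧸ Ideal.span {u}) < Cardinal.aleph0 ∧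
    Even (Module.finrank k (A ⧸ Ideal.span {u}))) →
  ∃ χ : AF A (kil (⊥ : Ideal A)) (ZMod 2), χ.f A = 0 ∧
    ∀ (N : Type) [AddCommGroup N] [Module A N] [Module k N] [IsScalarTower k A N],
      Module.Finite A N → (∃ u : A, u ≠ 0 ∧ ∀ y : N, u • y = 0) →
      χ.f N = (Module.finrank k N : ZMod 2)

end Pool.Agent.Helper72.FX
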